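import Pool.Agent.MP_c06449_al.H73.Meas

/-! Weighted boxes, the generating set, and the inclusion of balls in boxes. -/

namespace Pool.Agent.MP_c06449_al.H73

open MeasureTheory Set
open scoped ENNReal NNReal

/-- The weighted box of size `n` in the integer coordinates. -/
structure Dz.Box (n : ℕ) (δ : Dz) : Prop where
  A : |δ.A| ≤ n
  B : |δ.B| ≤ n
  D : |δ.D| ≤ n
  C : |δ.C| ≤ n
  e : |δ.e| ≤ n
  x : |δ.x| ≤ n ^ 2
  f3 : |δ.f3| ≤ 4 * n
  f2 : |δ.f2| ≤ 6 * n ^ 2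
  f1 : |δ.f1| ≤ 4 * n ^ 3
  g5 : |δ.g5| ≤ 6 * n
  g4 : |δ.g4| ≤ 15 * n ^ 2
  g3 : |δ.g3| ≤ 20 * n ^ 3
  g2 : |δ.g2| ≤ 15 * n ^ 4
  g1 : |δ.g1| ≤ 6 * n ^ 5
  y : |δ.y| ≤ n ^ 6 + n ^ 2

theorem abs_pm {e g m M : ℤ} (k : ℕ) (he : |e| ≤ m) (hg : |g| ≤ M) :
    -(m ^ k * M) ≤ e ^ k * g ∧ e ^ k * g ≤ m ^ k * M := by
  rw [← abs_le, abs_mul, abs_pow]
  have := (abs_nonneg e).trans he
  gcongr

theorem Dz.Box.mul {m n : ℕ} {a b : Dz} (ha : a.Box m) (hb : b.Box n) : (a * b).Box (m + n) := by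
  have hmn : (0 : ℤ) ≤ m * n := by positivity
  have hadd : ∀ {s t M N : ℤ}, |s| ≤ M → |t| ≤ N → |s + t| ≤ M + N :=
    fun h1 h2 => (abs_add_le _ _).trans (add_le_add h1 h2)
  constructor
  · simpa using hadd ha.A hb.A
  · simpa using hadd ha.B hb.B
  · simpa using hadd ha.D hb.D
  · simpa using hadd ha.C hb.C
  · simpa using hadd ha.e hb.e
  · have h1 := abs_le.mp ha.x
    have h2 := abs_le.mp hb.x
    have h3 := abs_pm 1 ha.B hb.C
    rw [abs_le, Dz.mul_x]; push_cast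
    constructor <;> linarith [h1.1, h1.2, h2.1, h2.2, h3.1, h3.2]
  · simpa [mul_add] using hadd ha.f3 hb.f3
  · have h1 := abs_le.mp ha.f2
    have h2 := abs_le.mp hb.f2
    have h3 := abs_pm 1 ha.e hb.f3
    rw [abs_le, Dz.mul_f2]; push_cast
    constructor <;> linarith [h1.1, h1.2, h2.1, h2.2, h3.1, h3.2]
  · have h1 := abs_le.mp ha.f1
    have h2 := abs_le.mp hb.f1
    have h3 := abs_pm 1 ha.e hb.f2
    have h4 := abs_pm 2 ha.e hb.f3
    rw [abs_le, Dz.mul_f1]; push_cast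
    constructor <;> linarith [h1.1, h1.2, h2.1, h2.2, h3.1, h3.2, h4.1, h4.2]
  · simpa [mul_add] using hadd ha.g5 hb.g5
  · have h1 := abs_le.mp ha.g4
    have h2 := abs_le.mp hb.g4
    have h3 := abs_pm 1 ha.e hb.g5
    rw [abs_le, Dz.mul_g4]; push_cast
    constructor <;> linarith [h1.1, h1.2, h2.1, h2.2, h3.1, h3.2]
  · have h1 := abs_le.mp ha.g3
    have h2 := abs_le.mp hb.g3
    have h3 := abs_pm 1 ha.e hb.g4
    have h4 := abs_pm 2 ha.e hb.g5
    rw [abs_le, Dz.mul_g3]; push_cast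
    constructor <;> linarith [h1.1, h1.2, h2.1, h2.2, h3.1, h3.2, h4.1, h4.2]
  · have h1 := abs_le.mp ha.g2
    have h2 := abs_le.mp hb.g2
    have h3 := abs_pm 1 ha.e hb.g3
    have h4 := abs_pm 2 ha.e hb.g4
    have h5 := abs_pm 3 ha.e hb.g5
    rw [abs_le, Dz.mul_g2]; push_cast
    constructor <;> linarith [h1.1, h1.2, h2.1, h2.2, h3.1, h3.2, h4.1, h4.2, h5.1, h5.2]
  · have h1 := abs_le.mp ha.g1
    have h2 := abs_le.mp hb.g1
    have h3 := abs_pm 1 ha.e hb.g2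
    have h4 := abs_pm 2 ha.e hb.g3
    have h5 := abs_pm 3 ha.e hb.g4
    have h6 := abs_pm 4 ha.e hb.g5
    rw [abs_le, Dz.mul_g1]; push_cast
    constructor <;>
      linarith [h1.1, h1.2, h2.1, h2.2, h3.1, h3.2, h4.1, h4.2, h5.1, h5.2, h6.1, h6.2]
  · have h1 := abs_le.mp ha.y
    have h2 := abs_le.mp hb.y
    have h3 := abs_pm 1 ha.e hb.g1
    have h4 := abs_pm 2 ha.e hb.g2
    have h5 := abs_pm 3 ha.e hb.g3
    have h6 := abs_pm 4 ha.e hb.g4
    have h7 := abs_pm 5 ha.e hb.g5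
    have h8 := abs_pm 1 ha.D hb.C
    rw [abs_le, Dz.mul_y]; push_cast
    constructor <;>
      linarith [h1.1, h1.2, h2.1, h2.2, h3.1, h3.2, h4.1, h4.2, h5.1, h5.2, h6.1, h6.2, h7.1,
        h7.2, h8.1, h8.2]

theorem Dz.Box.cz {m n : ℕ} {a b : Dz} (ha : a.Box m) (hb : b.Box n) :
    |Dz.cz a b| ≤ 4 * m * n ^ 3 + 6 * m ^ 2 * n ^ 2 + 4 * m ^ 3 * n + m * n := by
  have h3 := abs_pm 1 ha.e hb.f1
  have h4 := abs_pm 2 ha.e hb.f2
  have h5 := abs_pm 3 ha.e hb.f3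
  have h6 := abs_pm 1 ha.B hb.A
  rw [abs_le, Dz.cz]
  constructor <;> linarith [h3.1, h3.2, h4.1, h4.2, h5.1, h5.2, h6.1, h6.2]

theorem Dz.Box.mono {m n : ℕ} {a : Dz} (ha : a.Box m) (h : m ≤ n) : a.Box n := by
  have h' : (m : ℤ) ≤ n := by exact_mod_cast h
  constructor
  exacts [ha.A.trans h', ha.B.trans h', ha.D.trans h', ha.C.trans h', ha.e.trans h',
    ha.x.trans (by gcongr), ha.f3.trans (by gcongr), ha.f2.trans (by gcongr),
    ha.f1.trans (by gcongr), ha.g5.trans (by gcongr), ha.g4.trans (by gcongr),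
    ha.g3.trans (by gcongr), ha.g2.trans (by gcongr), ha.g1.trans (by gcongr),
    ha.y.trans (by gcongr)]

theorem Dz.Box.vec {n : ℕ} {a : Dz} (ha : a.Box n) (hn : 1 ≤ n) (i : Fin 15) :
    |a.vec i| ≤ 20 * n ^ 6 := by
  have h1 : (1 : ℤ) ≤ n := by exact_mod_cast hn
  have hk : ∀ k, k ≤ 6 → (n : ℤ) ^ k ≤ n ^ 6 := fun k hk => pow_le_pow_right₀ h1 hk
  have h0 : (0 : ℤ) ≤ n ^ 6 := by positivity
  have := hk 1 (by norm_num)
  have := hk 2 (by norm_num)
  have := hk 3 (by norm_num)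
  have := hk 4 (by norm_num)
  have := hk 5 (by norm_num)
  obtain ⟨_, _, _, _, _, _, _, _, _, _, _, _, _, _, _⟩ := ha
  fin_cases i <;> simp only [Dz.vec] <;> simp <;> linarith

theorem Dz.box_of_vec {n : ℕ} {a : Dz} (hn : 1 ≤ n) (h : ∀ i, |a.vec i| ≤ n) : a.Box n := by
  have h1 : (1 : ℤ) ≤ n := by exact_mod_cast hn
  have hk : ∀ k, 1 ≤ k → (n : ℤ) ≤ n ^ k := fun k hk => le_self_pow₀ h1 (by omega)
  have := hk 2 (by norm_num)
  have := hk 3 (by norm_num)
  have := hk 4 (by norm_num)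
  have := hk 5 (by norm_num)
  have := hk 6 (by norm_num)
  constructor
  exacts [h 0, h 1, h 2, h 3, h 4, (h 5).trans (by linarith), (h 6).trans (by linarith),
    (h 7).trans (by linarith), (h 8).trans (by linarith), (h 9).trans (by linarith),
    (h 10).trans (by linarith), (h 11).trans (by linarith), (h 12).trans (by linarith),
    (h 13).trans (by linarith), (h 14).trans (by linarith)]

namespace G

variable {K : Type} [CommRing K] {a : K}

/-- The weighted box of size `n`. -/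
def Box (n : ℕ) (h : G K a) : Prop := h.d.Box n ∧ |h.u.1| ≤ n ∧ |h.z.1| ≤ n ^ 4 + n ^ 2

theorem Box.mul {m n : ℕ} {g h : G K a} (hg : g.Box m) (hh : h.Box n) : (g * h).Box (m + n) := by
  refine ⟨hg.1.mul hh.1, ?_, ?_⟩
  · simpa using (abs_add_le _ _).trans (add_le_add hg.2.1 hh.2.1)
  · have h1 := abs_le.mp hg.2.2
    have h2 := abs_le.mp hh.2.2
    have h3 : |((Dz.cz g.d h.d : ℤ) : ℝ)| ≤
        4 * m * n ^ 3 + 6 * m ^ 2 * n ^ 2 + 4 * m ^ 3 * n + m * n := by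
      exact_mod_cast hg.1.cz hh.1
    have h4 : |((g.d.D : ℤ) : ℝ) * h.u.1| ≤ m * n := by
      rw [abs_mul]
      have : |((g.d.D : ℤ) : ℝ)| ≤ m := by exact_mod_cast hg.1.D
      have := hh.2.1
      gcongr
    have h3 := abs_le.mp h3
    have h4 := abs_le.mp h4
    rw [abs_le]
    simp only [mul_z, Prod.fst_add, Prod.fst_mul, Prod.fst_intCast, io_fst]
    push_cast
    constructor <;> linarith [h1.1, h1.2, h2.1, h2.2, h3.1, h3.2, h4.1, h4.2]

theorem Box.mono {m n : ℕ} {g : G K a} (hg : g.Box m) (h : m ≤ n) : g.Box n := by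
  have h' : (m : ℝ) ≤ n := by exact_mod_cast h
  exact ⟨hg.1.mono h, hg.2.1.trans h', hg.2.2.trans (by gcongr)⟩

theorem exists_box (g : G K a) : ∃ n, 1 ≤ n ∧ g.Box n := by
  obtain ⟨n1, h1⟩ := exists_nat_ge |g.u.1|
  obtain ⟨n2, h2⟩ := exists_nat_ge |g.z.1|
  obtain ⟨M, hM⟩ := (Set.finite_range fun i => (g.d.vec i).natAbs).bddAbove
  refine ⟨n1 + n2 + M + 1, by omega, Dz.box_of_vec (by omega) fun i => ?_, ?_, ?_⟩
  · have := hM ⟨i, rfl⟩
    simp only at this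
    rw [Int.abs_eq_natAbs]
    omega
  · refine h1.trans ?_
    exact_mod_cast (by omega : n1 ≤ n1 + n2 + M + 1)
  · refine h2.trans ?_
    have h4 : n1 + n2 + M + 1 ≤ (n1 + n2 + M + 1) ^ 2 := Nat.le_self_pow (by norm_num) _
    have : n2 ≤ (n1 + n2 + M + 1) ^ 4 + (n1 + n2 + M + 1) ^ 2 := by omega
    exact_mod_cast this

/-- The generating set. -/
def gen (a : K) : Set (G K a) := {h | h.Box 1 ∧ h⁻¹.Box 1}

theorem box_of_inBall {n : ℕ} {h : G K a} (hh : InBall (gen a) n h) : h.Box n := by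
  refine InBall.induction (P := fun n (h : G K a) => h.Box n) ?_ ?_
    (fun _ _ _ _ => Box.mul) (fun _ _ _ => Box.mono) hh
  · refine ⟨?_, by simp, by simp⟩
    constructor <;> simp
  · rintro s (hs | hs)
    · exact hs.1
    · simpa using hs.2

variable [TopologicalSpace K]

theorem isClosed_box (n : ℕ) : IsClosed {h : G K a | h.Box n} :=
  ((isClosed_discrete {δ : Dz | δ.Box n}).preimage continuous_d).inter
    ((isClosed_le (continuous_fst.comp continuous_u).abs continuous_const).inter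
      (isClosed_le (continuous_fst.comp continuous_z).abs continuous_const))

theorem isCompact_gen [IsTopologicalRing K] [CompactSpace K] : IsCompact (gen a) := by
  refine (isCompact_box (a := a) 20 2).of_isClosed_subset
    ((isClosed_box 1).inter ((isClosed_box 1).preimage continuous_inv)) ?_
  rintro h ⟨⟨h1, h2, h3⟩, -⟩
  refine ⟨fun i => by simpa using h1.vec le_rfl i, h2.trans (by norm_num), h3.trans (by norm_num)⟩

end G

end Pool.Agent.MP_c06449_al.H73
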