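import Mathlib

/-!
Definitions for the systolic growth of compactly generated locally compact groups of
polynomial growth.
-/

namespace Pool.Agent.MP_c06449_al.H73

open MeasureTheory
open scoped ENNReal

/-- Word length of `x` with respect to `S`: the least length of a word in `S ∪ S⁻¹` with
product `x`. -/
noncomputable def wordLength {H : Type} [Group H] (S : Set H) (x : H) : ℕ :=
  sInf {n : ℕ | ∃ l : List H, l.length = n ∧ (∀ s ∈ l, s ∈ S ∨ s⁻¹ ∈ S) ∧ l.prod = x}

/-- A compactly generated, locally compact (Hausdorff) group of polynomial growth with at least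
one lattice, together with a compact generating set `S` and a Haar measure `μ`. -/
structure Setting where
  H : Type
  [grp : Group H]
  [top : TopologicalSpace H]
  [topGrp : IsTopologicalGroup H]
  [locCompact : LocallyCompactSpace H]
  [t2 : T2Space H]
  [meas : MeasurableSpace H]
  [borel : BorelSpace H]
  μ : Measure H
  [haar : μ.IsHaarMeasure]
  S : Set H
  compact : IsCompact S
  generates : Subgroup.closure S = ⊤
  polyGrowth : ∃ C d : ℕ, ∀ n : ℕ, 1 ≤ n → μ {x | wordLength S x ≤ n} ≤ C * (n : ℝ≥0∞) ^ d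
  lattice : ∃ Γ : Subgroup H, DiscreteTopology Γ ∧ HasFundamentalDomain Γ H μ ∧
    covolume Γ H μ < ∞

attribute [instance] Setting.grp Setting.top Setting.meas

/-- Systolic growth: the infimum of the covolumes of the cocompact lattices `Γ` of systole
at least `r`. -/
noncomputable def Setting.sigma (X : Setting) (r : ℝ) : ℝ≥0∞ :=
  ⨅ (Γ : Subgroup X.H) (_ : DiscreteTopology Γ) (_ : CompactSpace (X.H ⧸ Γ))
    (_ : ∀ γ ∈ Γ, γ ≠ 1 → r ≤ (wordLength X.S γ : ℝ)), covolume Γ X.H X.μ

/-- The relation `f ⪯ g`. -/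
def Prec (f g : ℝ → ℝ≥0∞) : Prop :=
  ∃ C C' C'' : ℝ, 0 < C ∧ 0 < C' ∧ 0 < C'' ∧
    ∀ r : ℝ, 0 < r → f r ≤ ENNReal.ofReal C * g (C' * r) + ENNReal.ofReal C''

end Pool.Agent.MP_c06449_al.H73
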