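import Pool.Agent.MP_c06449_al.H73.Pack

/-! The groups attached to sets of primes and their systolic growth. -/

namespace Pool.Agent.MP_c06449_al.H73

open MeasureTheory Set
open scoped ENNReal NNReal

local instance factPrimes (p : Nat.Primes) : Fact p.1.Prime := ⟨p.2⟩

/-- The product of all rings of `p`-adic integers. -/
abbrev KK : Type := ∀ p : Nat.Primes, ℤ_[p.1]

open Classical in
/-- The element with component `p` at the primes `p ∈ S` and `1` at the other primes. -/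
noncomputable def aS (S : Set ℕ) : KK := fun p => if p.1 ∈ S then (p.1 : ℤ_[p.1]) else 1

theorem kk_torsion (k : ℤ) (u : ℝ × KK) (hk : k ≠ 0) (h : k * u = 0) : u = 0 := by
  refine Prod.ext ?_ (funext fun p => ?_)
  · simpa [hk] using congrArg Prod.fst h
  · simpa [hk] using congrFun (congrArg Prod.snd h) p

theorem kk_div (S : Set ℕ) {Q P : ℕ} (hS : ∀ p ∈ S, p ∣ Q ∨ P ≤ p) (k j : ℤ) (v : KK)
    (hk : k ≠ 0) (hP : |k| < P) (h : k * v = j * aS S) : k ∣ j * Q := by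
  rw [← Int.natAbs_dvd_natAbs, Nat.dvd_iff_prime_pow_dvd_dvd]
  intro p e hp he
  have : Fact p.Prime := ⟨hp⟩
  rcases Nat.eq_zero_or_pos e with rfl | hpos
  · simp
  have h1 : (p : ℤ) ^ e ∣ k := by
    rw [← Int.dvd_natAbs]; exact_mod_cast he
  have h2 : p ≤ k.natAbs :=
    Nat.le_of_dvd (Int.natAbs_pos.mpr hk) ((dvd_pow_self p hpos.ne').trans he)
  have h3 : (k : ℤ_[p]) * v ⟨p, hp⟩ = j * aS S ⟨p, hp⟩ := congrFun h ⟨p, hp⟩
  have h4 : aS S ⟨p, hp⟩ ∣ (Q : ℤ_[p]) := by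
    unfold aS
    split_ifs with h5
    · rcases hS p h5 with h6 | h6
      · exact Nat.cast_dvd_cast h6
      · rw [Int.abs_eq_natAbs] at hP; omega
    · exact one_dvd _
  have h5 : (p : ℤ_[p]) ^ e ∣ ((j * Q : ℤ) : ℤ_[p]) := by
    refine ((PadicInt.pow_p_dvd_int_iff (p := p) e k).mpr h1).trans ?_
    refine (Dvd.intro _ h3).trans ?_
    push_cast
    exact mul_dvd_mul_left _ h4
  have h6 := (PadicInt.pow_p_dvd_int_iff (p := p) e _).mp h5
  rw [← Int.natCast_dvd_natCast, Int.dvd_natAbs]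
  exact_mod_cast h6

theorem kk_root (S : Set ℕ) {p : ℕ} (hp : p.Prime) (hS : p ∈ S) : ∃ v : KK, p * v = aS S := by
  have : ∀ l : Nat.Primes, ∃ w : ℤ_[l.1], p * w = aS S l := by
    intro l
    by_cases h : l.1 = p
    · exact ⟨1, by simp [aS, h, hS]⟩
    · have hu : IsUnit (p : ℤ_[l.1]) := PadicInt.isUnit_iff.mpr
        (PadicInt.norm_natCast_eq_one_iff.mpr ((Nat.coprime_primes l.2 hp).mpr h))
      obtain ⟨w, hw⟩ := hu.dvd (a := aS S l)
      exact ⟨w, hw.symm⟩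
  choose v hv using this
  exact ⟨v, funext hv⟩

/-- The lattice parameters available at every scale. -/
noncomputable def parGen (S : Set ℕ) (r : ℕ) : G.Par (aS S) :=
  ⟨r, r ^ 3, 0, 0, 0, -1, Nat.le_self_pow (by norm_num) _, by simp, by simp⟩

/-- The group attached to a set of primes. -/
noncomputable def X (S : Set ℕ) : Setting where
  H := G KK (aS S)
  μ := Measure.haar
  S := G.gen (aS S)
  compact := G.isCompact_gen
  generates := G.closure_gen
  polyGrowth := by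
    obtain ⟨c, -, hc⟩ := G.exists_box_const (a := aS S) Measure.haar
    refine ⟨⌈c⌉₊ * 41 ^ 17, 102, fun n hn => ?_⟩
    have h1 : (1 : ℝ) ≤ n := by exact_mod_cast hn
    have h2 : ∀ k, k ≤ 6 → (n : ℝ) ^ k ≤ n ^ 6 := fun k hk => pow_le_pow_right₀ h1 hk
    have h3 : (0 : ℝ) < n ^ 6 := by positivity
    have h4 : (0 : ℤ) < n ^ 6 := by positivity
    refine le_trans (measure_mono (t := G.Bx (aS S) (fun _ => -(20 * n ^ 6)) (fun _ => 41 * n ^ 6)
      (-(20 * n ^ 6)) (41 * n ^ 6 : ℕ) (-(20 * n ^ 6)) (41 * n ^ 6 : ℕ)) fun g hg => ?_) ?_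
    · obtain ⟨h5, h6, h7⟩ := (G.box_wordLength g).mono hg
      have h6 := abs_le.mp h6
      have h7 := abs_le.mp h7
      have := h2 1 (by norm_num)
      have := h2 2 (by norm_num)
      have := h2 4 (by norm_num)
      refine ⟨fun i => ?_, ?_, ?_⟩
      · have := abs_le.mp (h5.vec hn i)
        push_cast
        constructor <;> linarith [this.1, this.2]
      · push_cast
        constructor <;> linarith [h6.1, h6.2]
      · push_cast
        constructor <;> linarith [h7.1, h7.2]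
    · rw [hc, ENNReal.ofReal_natCast]
      have h8 : (c : ℝ≥0∞) ≤ (⌈c⌉₊ : ℕ) := by exact_mod_cast Nat.le_ceil c
      refine (mul_le_mul_left h8 _).trans (le_of_eq ?_)
      simp only [Finset.prod_const, Finset.card_univ, Fintype.card_fin]
      push_cast
      ring
  lattice := by
    obtain ⟨c, -, hc⟩ := G.exists_box_const (a := aS S) Measure.haar
    obtain ⟨Γ, h1, -, -, h2⟩ := G.upper Measure.haar hc (parGen S 21) (by simp [parGen])
    exact ⟨Γ, h1, ⟨exists_fund Γ _⟩, h2.trans_lt (ENNReal.mul_lt_top ENNReal.coe_lt_top (ENNReal.natCast_lt_top _))⟩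

theorem sigma_bounds (S : Set ℕ) : ∃ (c : ℝ≥0) (c₀ : ℕ), 0 < c ∧
    (∀ (p : G.Par (aS S)) (t : ℝ), 20 < p.r → 20 * t ≤ p.r →
      (X S).sigma t ≤ c * (p.α * p.r ^ 42 : ℕ)) ∧
    ∀ (ρ Q : ℕ) (t : ℝ), 1 ≤ ρ → 0 < Q → c₀ * ρ < t → (∀ p ∈ S, p ∣ Q ∨ ρ ^ 88 ≤ p) →
      c * (ρ ^ 44 : ℕ) / Q ≤ (X S).sigma t := by
  obtain ⟨c, hc0, hc⟩ := G.exists_box_const (a := aS S) Measure.haar
  obtain ⟨c₀, h₀⟩ := G.rsA (a := aS S)
  refine ⟨c, c₀ * 5, hc0, fun p t h1 h2 => ?_, fun ρ Q t h1 h2 h3 h4 => ?_⟩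
  · obtain ⟨Γ, h3, h4, h5, h6⟩ := G.upper Measure.haar hc p h1
    refine iInf_le_of_le Γ (iInf_le_of_le h3 (iInf_le_of_le h4 (iInf_le_of_le ?_ h6)))
    intro γ hγ hne
    have : (p.r : ℝ) ≤ 20 * wordLength (G.gen (aS S)) γ := by exact_mod_cast h5 γ hγ hne
    change t ≤ wordLength (G.gen (aS S)) γ
    linarith
  · refine le_iInf fun Γ => le_iInf fun hd => le_iInf fun _ => le_iInf fun hs => ?_
    have : DiscreteTopology (show Subgroup (G KK (aS S)) from Γ) := hd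
    refine ENNReal.div_le_of_le_mul' (G.lower (Γ := Γ) hc h1 ?_ kk_torsion (kk_div S h4) h2 le_rfl)
    intro g hg hL hb
    by_contra hne
    have h5 := hs g hg hne
    have h6 : (wordLength (G.gen (aS S)) g : ℝ) ≤ (c₀ * (5 * ρ) : ℕ) := by
      exact_mod_cast (h₀ _ (by omega) g hL hb).wordLength_le
    change t ≤ wordLength (G.gen (aS S)) g at h5
    push_cast at h3 h6
    linarith

theorem sigma_poly (S : Set ℕ) : Prec (X S).sigma fun r => ENNReal.ofReal (r ^ 45) := by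
  obtain ⟨c, -, hc, h, -⟩ := sigma_bounds S
  have hc' : (0 : ℝ) < c := hc
  refine ⟨c, 42, c * 42 ^ 45, hc', by norm_num, by positivity, fun t ht => ?_⟩
  refine (h (parGen S (⌈20 * t⌉₊ + 21)) t (by simp [parGen])
    ((Nat.le_ceil _).trans (by simp [parGen]))).trans ?_
  have h1 : ((⌈20 * t⌉₊ + 21 : ℕ) : ℝ) ≤ 20 * t + 22 := by
    have := Nat.ceil_lt_add_one (a := 20 * t) (by positivity)
    push_cast; linarith
  have h2 : (20 * t + 22) ^ 45 ≤ (42 * t) ^ 45 + 42 ^ 45 := by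
    rcases le_total t 1 with h3 | h3
    · exact le_add_of_nonneg_of_le (by positivity) (by gcongr; linarith)
    · exact le_add_of_le_of_nonneg (by gcongr; linarith) (by positivity)
  rw [← ENNReal.ofReal_mul hc'.le, ← ENNReal.ofReal_add (by positivity) (by positivity),
    ← ENNReal.ofReal_coe_nnreal, ← ENNReal.ofReal_natCast, ← ENNReal.ofReal_mul hc'.le, ← mul_add]
  refine ENNReal.ofReal_le_ofReal (mul_le_mul_of_nonneg_left (le_trans ?_ h2) hc'.le)
  simp only [parGen]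
  rw [← pow_add, Nat.cast_pow]
  gcongr

/-- A prime above a given bound. -/
noncomputable def nextP (n : ℕ) : ℕ := (Nat.exists_infinite_primes n).choose

/-- Products of the first primes of the sparse sequence. -/
noncomputable def Qn : ℕ → ℕ
  | 0 => 1
  | k + 1 => Qn k * nextP (((k + 1) * Qn k) ^ 88)

/-- The sparse sequence of primes. -/
noncomputable def pr (k : ℕ) : ℕ := nextP (((k + 1) * Qn k) ^ 88)

theorem pr_prime (k : ℕ) : (pr k).Prime := (Nat.exists_infinite_primes _).choose_spec.2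
theorem le_pr (k : ℕ) : ((k + 1) * Qn k) ^ 88 ≤ pr k := (Nat.exists_infinite_primes _).choose_spec.1

theorem Qn_pos (k : ℕ) : 0 < Qn k := by
  induction k with
  | zero => simp [Qn]
  | succ k ih => exact Nat.mul_pos ih (pr_prime k).pos

theorem pr_dvd {j k : ℕ} (h : j < k) : pr j ∣ Qn k := by
  induction k with
  | zero => omega
  | succ k ih =>
    rcases Nat.lt_succ_iff_lt_or_eq.mp h with h | rfl
    · exact (ih h).mul_right _
    · exact Dvd.intro_left _ rfl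

theorem pr_pow_le {j k : ℕ} (h : j < k) : pr j ^ 88 ≤ pr k := by
  refine le_trans (Nat.pow_le_pow_left ?_ _) (le_pr k)
  exact (Nat.le_of_dvd (Qn_pos k) (pr_dvd h)).trans (Nat.le_mul_of_pos_left _ (by omega))

/-- The set of primes attached to a set of natural numbers. -/
def ST (T : Set ℕ) : Set ℕ := {p | ∃ i ∈ T, ∃ j, p = pr (Nat.pair i j)}

theorem subset_of_prec {T T' : Set ℕ} (h : Prec (X (ST T)).sigma (X (ST T')).sigma) : T' ⊆ T := by
  intro i hi
  by_contra hni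
  obtain ⟨C, C', C'', hC, hC', hC'', h⟩ := h
  obtain ⟨c, c₀, hc, -, hlow⟩ := sigma_bounds (ST T)
  obtain ⟨c', -, hc', hup, -⟩ := sigma_bounds (ST T')
  have hcr : (0 : ℝ) < c := hc
  have hcr' : (0 : ℝ) < c' := hc'
  obtain ⟨M, hM⟩ := exists_nat_gt (20 * C')
  have hM0 : 0 < M := by exact_mod_cast (by positivity : (0 : ℝ) < 20 * C').trans hM
  obtain ⟨N, hN⟩ : ∃ N, N = M * (c₀ + 1) := ⟨_, rfl⟩
  have hN0 : 0 < N := by rw [hN]; positivity
  obtain ⟨W, hW⟩ : ∃ W : ℝ, W = C * c' * (2 * N) ^ 43 + C'' := ⟨_, rfl⟩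
  obtain ⟨j, hj⟩ := exists_nat_gt (2 * N * W / c)
  obtain ⟨k, hk⟩ : ∃ k, k = Nat.pair i (j + N + 20) := ⟨_, rfl⟩
  have hk1 : j + N + 20 ≤ k := hk ▸ Nat.right_le_pair _ _
  obtain ⟨p, hp⟩ : ∃ p, p = pr k := ⟨_, rfl⟩
  have hQ := Qn_pos k
  have hp1 : (k + 1) * Qn k ≤ p := hp ▸ (Nat.le_self_pow (by norm_num) _).trans (le_pr k)
  have hp2 : k + 1 ≤ p := (Nat.le_mul_of_pos_right _ hQ).trans hp1
  have hp0 : (0 : ℝ) < p := by exact_mod_cast (by omega : 0 < p)
  have hM' : (0 : ℝ) < M := by exact_mod_cast hM0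
  obtain ⟨v, hv⟩ := kk_root (ST T') (hp ▸ pr_prime k) ⟨i, hi, _, by rw [hp, hk]⟩
  have h1 := hup ⟨p, p, (1 / p, v), 1, 1, 0, le_rfl, Prod.ext (by simp [hp0.ne']) (by simpa using hv),
    by simp⟩ (C' * (p / M)) (by change 20 < p; omega) (by
      change _ ≤ (p : ℝ)
      rw [← mul_assoc, ← mul_div_assoc, div_le_iff₀ hM']
      nlinarith)
  obtain ⟨ρ, hρ⟩ : ∃ ρ, ρ = p / N := ⟨_, rfl⟩
  have hρ1 : 1 ≤ ρ := hρ ▸ Nat.div_pos (by omega) hN0
  have hρ2 : N * ρ ≤ p := hρ ▸ Nat.mul_div_le _ _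
  have hρ3 : p ≤ 2 * N * ρ := by
    have := Nat.div_add_mod p N
    have := Nat.mod_lt p hN0
    rw [← hρ] at *
    nlinarith
  have h2 := hlow ρ (Qn k) (p / M) hρ1 hQ (by
    rw [lt_div_iff₀ hM']
    have : c₀ * ρ * M < p := by rw [hN] at hρ2; nlinarith
    exact_mod_cast this) (by
    rintro _ ⟨i', hi', j', rfl⟩
    rcases lt_trichotomy (Nat.pair i' j') k with h3 | h3 | h3
    · exact Or.inl (pr_dvd h3)
    · rw [hk, Nat.pair_eq_pair] at h3
      exact absurd (h3.1 ▸ hi') hni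
    · refine Or.inr (le_trans (Nat.pow_le_pow_left ?_ _) (pr_pow_le h3))
      rw [← hp]; nlinarith)
  have h3 := (h2.trans (h _ (by positivity))).trans (add_le_add_left (mul_le_mul_right h1 _) _)
  have hQ' : (0 : ℝ) < Qn k := by exact_mod_cast hQ
  rw [← ENNReal.ofReal_coe_nnreal, ← ENNReal.ofReal_coe_nnreal (p := c'), ← ENNReal.ofReal_natCast,
    ← ENNReal.ofReal_natCast (Qn k), ← ENNReal.ofReal_natCast (_ * _),
    ← ENNReal.ofReal_mul hcr.le, ← ENNReal.ofReal_mul hcr'.le, ← ENNReal.ofReal_mul hC.le,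
    ← ENNReal.ofReal_div_of_pos hQ', ← ENNReal.ofReal_add (by positivity) hC''.le,
    ENNReal.ofReal_le_ofReal_iff (by positivity), div_le_iff₀ hQ'] at h3
  push_cast at h3
  have hρ1' : (1 : ℝ) ≤ ρ := by exact_mod_cast hρ1
  have hρ3' : (p : ℝ) ≤ 2 * N * ρ := by exact_mod_cast hρ3
  have hp1' : ((k : ℝ) + 1) * Qn k ≤ p := by exact_mod_cast hp1
  have h4 : (p : ℝ) * p ^ 42 ≤ (2 * N) ^ 43 * ρ ^ 43 := by
    rw [← pow_succ', ← mul_pow]; gcongr
  have h5 : (1 : ℝ) ≤ ρ ^ 43 := one_le_pow₀ hρ1'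
  have h6 : c * (ρ : ℝ) * ρ ^ 43 ≤ W * Qn k * ρ ^ 43 := by
    calc c * (ρ : ℝ) * ρ ^ 43 = c * ρ ^ 44 := by ring
      _ ≤ _ := h3
      _ ≤ (C * (c' * ((2 * N) ^ 43 * ρ ^ 43)) + C'' * ρ ^ 43) * Qn k := by
        gcongr
        exact le_mul_of_one_le_right hC''.le h5
      _ = _ := by rw [hW]; ring
  have h7 : c * (ρ : ℝ) ≤ W * Qn k := le_of_mul_le_mul_right h6 (by positivity)
  have h8 : c * ((k : ℝ) + 1) * Qn k ≤ 2 * N * W * Qn k := by
    have hN' : (0 : ℝ) < N := by exact_mod_cast hN0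
    calc c * ((k : ℝ) + 1) * Qn k = c * ((k + 1) * Qn k) := by ring
      _ ≤ c * (2 * N * ρ) := mul_le_mul_of_nonneg_left (hp1'.trans hρ3') hcr.le
      _ = 2 * N * (c * ρ) := by ring
      _ ≤ 2 * N * (W * Qn k) := by gcongr
      _ = _ := by ring
  have h9 := le_of_mul_le_mul_right h8 hQ'
  rw [div_lt_iff₀ hcr] at hj
  have h10 : (j : ℝ) ≤ k := by exact_mod_cast (by omega : j ≤ k)
  nlinarith

end Pool.Agent.MP_c06449_al.H73
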