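import Pool.Agent.MP_c06449_al.H73.Defs

/-! Fundamental domains of discrete subgroups, packing and covering bounds, word balls. -/

namespace Pool.Agent.MP_c06449_al.H73

open MeasureTheory Set
open scoped ENNReal Pointwise

section Fund

variable {H : Type} [Group H] [TopologicalSpace H] [IsTopologicalGroup H]
  [SecondCountableTopology H] [MeasurableSpace H] [BorelSpace H]

omit [MeasurableSpace H] [BorelSpace H] [IsTopologicalGroup H] in
theorem countable_of_discrete (Γ : Subgroup H) [DiscreteTopology Γ] : Countable Γ :=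
  TopologicalSpace.separableSpace_iff_countable.mp inferInstance

omit [SecondCountableTopology H] [MeasurableSpace H] [BorelSpace H] in
theorem exists_small_nhds (Γ : Subgroup H) [DiscreteTopology Γ] :
    ∃ V : Set H, IsOpen V ∧ (1 : H) ∈ V ∧ ∀ γ ∈ Γ, ∀ v ∈ V, γ * v ∈ V → γ = 1 := by
  have h1 : IsOpen ({1} : Set Γ) := isOpen_discrete _
  obtain ⟨U, hU, hU1⟩ := isOpen_induced_iff.mp h1
  have h1U : (1 : H) ∈ U := by
    have : (1 : Γ) ∈ Subtype.val ⁻¹' U := by rw [hU1]; rfl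
    exact this
  obtain ⟨W, hW, hWU⟩ := exists_nhds_split_inv (hU.mem_nhds h1U)
  refine ⟨interior W, isOpen_interior, mem_interior_iff_mem_nhds.mpr hW, ?_⟩
  intro γ hγ v hv hγv
  have h2 := hWU _ (interior_subset hγv) _ (interior_subset hv)
  have h3 : γ ∈ U := by simpa using h2
  have : (⟨γ, hγ⟩ : Γ) ∈ Subtype.val ⁻¹' U := h3
  rw [hU1] at this
  exact congrArg Subtype.val this

theorem exists_fund (Γ : Subgroup H) [DiscreteTopology Γ] (μ : Measure H) :
    ∃ F : Set H, IsFundamentalDomain Γ F μ := by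
  classical
  obtain ⟨V, hV, h1, hVΓ⟩ := exists_small_nhds Γ
  let U : H → Set H := fun g => (fun x => x * g⁻¹) ⁻¹' V
  have hUo : ∀ g, IsOpen (U g) := fun g => hV.preimage (continuous_mul_const _)
  obtain ⟨T, hTc, hTU⟩ := TopologicalSpace.isOpen_iUnion_countable U hUo
  have hcov : (⋃ g, U g) = univ := by
    refine eq_univ_of_forall fun x => mem_iUnion.mpr ⟨x, ?_⟩
    simpa [U] using h1
  have hTne : T.Nonempty := by
    by_contra hne
    rw [not_nonempty_iff_eq_empty] at hne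
    rw [hne, hcov] at hTU
    have : (1 : H) ∈ (⋃ i ∈ (∅ : Set H), U i) := by rw [hTU]; trivial
    simp at this
  obtain ⟨g, hg⟩ := hTc.exists_eq_range hTne
  have hex : ∀ x : H, ∃ n, ∃ γ : Γ, (γ : H) * x ∈ U (g n) := by
    intro x
    have : x ∈ ⋃ i ∈ T, U i := by rw [hTU, hcov]; trivial
    simp only [mem_iUnion] at this
    obtain ⟨i, hi, hx⟩ := this
    rw [hg] at hi
    obtain ⟨n, rfl⟩ := hi
    exact ⟨n, 1, by simpa using hx⟩
  let O : ℕ → Set H := fun n => ⋃ γ : Γ, (fun x => (γ : H) * x) ⁻¹' U (g n)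
  have hOo : ∀ n, IsOpen (O n) := fun n =>
    isOpen_iUnion fun γ => (hUo _).preimage (continuous_const_mul _)
  refine ⟨⋃ n, (U (g n) \ ⋃ m ∈ Finset.range n, O m), IsFundamentalDomain.mk' ?_ ?_⟩
  · refine (MeasurableSet.iUnion fun n => (hUo _).measurableSet.diff ?_).nullMeasurableSet
    exact (isOpen_biUnion fun m _ => hOo m).measurableSet
  · intro x
    obtain ⟨γ, hγ⟩ := Nat.find_spec (hex x)
    have key : ∀ (δ : Γ) (k : ℕ), (δ : H) * x ∈ U (g k) \ ⋃ m ∈ Finset.range k, O m →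
        k = Nat.find (hex x) := by
      intro δ k hk
      have h2 : Nat.find (hex x) ≤ k := Nat.find_min' _ ⟨δ, hk.1⟩
      by_contra hne
      apply hk.2
      simp only [mem_iUnion]
      refine ⟨Nat.find (hex x), Finset.mem_range.mpr (by omega), mem_iUnion.mpr ⟨γ * δ⁻¹, ?_⟩⟩
      simpa [mul_assoc] using hγ
    refine ⟨γ, ?_, ?_⟩
    · refine mem_iUnion.mpr ⟨Nat.find (hex x), hγ, ?_⟩
      simp only [mem_iUnion, not_exists]
      intro m hm hO
      obtain ⟨δ, hδ⟩ := mem_iUnion.mp hO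
      refine Nat.find_min (hex x) (Finset.mem_range.mp hm) ⟨δ * γ, ?_⟩
      simpa [mul_assoc, Subgroup.smul_def] using hδ
    · intro δ hδ
      obtain ⟨k, hk⟩ := mem_iUnion.mp hδ
      have hk' := key δ k hk
      have h3 : (δ : H) * x ∈ U (g (Nat.find (hex x))) := hk' ▸ hk.1
      have h4 := hVΓ ((δ * γ⁻¹ : Γ) : H) (δ * γ⁻¹).2 _ hγ (by simpa [U, mul_assoc] using h3)
      have : δ * γ⁻¹ = 1 := Subtype.ext h4
      exact mul_inv_eq_one.mp this

theorem pack_le_covol (Γ : Subgroup H) [DiscreteTopology Γ] (μ : Measure H)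
    [μ.IsMulLeftInvariant] (P : Set H) (hP : MeasurableSet P)
    (h : ∀ γ ∈ Γ, ∀ p ∈ P, γ * p ∈ P → γ = 1) : μ P ≤ covolume Γ H μ := by
  obtain ⟨F, hF⟩ := exists_fund Γ μ
  have := countable_of_discrete Γ
  rw [hF.covolume_eq_volume μ]
  refine hF.measure_le_of_pairwise_disjoint hP.nullMeasurableSet ?_
  intro γ δ hne
  refine Disjoint.aedisjoint (Set.disjoint_left.mpr ?_)
  rintro x ⟨⟨p, hp, rfl⟩, -⟩ ⟨⟨q, hq, hpq⟩, -⟩
  apply hne
  have hpq' : (δ : H) * q = (γ : H) * p := hpq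
  have h2 := h ((δ⁻¹ * γ : Γ) : H) (δ⁻¹ * γ).2 p hp (by
    have : ((δ⁻¹ * γ : Γ) : H) * p = q := by
      simp [mul_assoc, ← hpq']
    rw [this]; exact hq)
  have : δ⁻¹ * γ = 1 := Subtype.ext h2
  exact (inv_mul_eq_one.mp this).symm

theorem covol_le_cover (Γ : Subgroup H) [DiscreteTopology Γ] (μ : Measure H)
    [μ.IsMulLeftInvariant] (F : Set H) (h : ∀ x : H, ∃ γ ∈ Γ, γ * x ∈ F) :
    covolume Γ H μ ≤ μ F := by
  obtain ⟨D, hD⟩ := exists_fund Γ μ
  have := countable_of_discrete Γ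
  rw [hD.covolume_eq_volume μ, hD.measure_eq_tsum F]
  refine le_trans (measure_mono ?_) (measure_iUnion_le _)
  intro x hx
  obtain ⟨γ, hγ, hx'⟩ := h x
  refine mem_iUnion.mpr ⟨(⟨γ, hγ⟩ : Γ)⁻¹, ⟨γ * x, hx', ?_⟩, hx⟩
  simp [Subgroup.smul_def]

omit [SecondCountableTopology H] [MeasurableSpace H] [BorelSpace H] in
theorem compact_quot (Γ : Subgroup H) (F : Set H) (hF : IsCompact F)
    (h : ∀ x : H, ∃ γ ∈ Γ, γ * x ∈ F) : CompactSpace (H ⧸ Γ) := by
  refine ⟨?_⟩
  have h1 : IsCompact ((QuotientGroup.mk : H → H ⧸ Γ) '' F⁻¹) :=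
    hF.inv.image QuotientGroup.continuous_mk
  convert h1
  refine (eq_univ_of_forall fun q => ?_).symm
  obtain ⟨x, rfl⟩ := QuotientGroup.mk_surjective q
  obtain ⟨γ, hγ, hx⟩ := h x⁻¹
  refine ⟨(γ * x⁻¹)⁻¹, by simpa using hx, ?_⟩
  rw [QuotientGroup.eq]
  simpa using hγ

end Fund

section Ball

variable {H : Type} [Group H]

/-- `x` is a product of at most `n` elements of `S ∪ S⁻¹`. -/
def InBall (S : Set H) (n : ℕ) (x : H) : Prop :=
  ∃ l : List H, l.length ≤ n ∧ (∀ s ∈ l, s ∈ S ∨ s⁻¹ ∈ S) ∧ l.prod = x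

variable {S : Set H}

theorem InBall.mono {m n : ℕ} {x : H} (h : InBall S m x) (hmn : m ≤ n) : InBall S n x := by
  obtain ⟨l, h1, h2, h3⟩ := h
  exact ⟨l, h1.trans hmn, h2, h3⟩

theorem InBall.one (n : ℕ) : InBall S n (1 : H) := ⟨[], by simp, by simp, by simp⟩

theorem InBall.of_mem {x : H} (h : x ∈ S) : InBall S 1 x :=
  ⟨[x], by simp, by simp [h], by simp⟩

theorem InBall.mul {m n : ℕ} {x y : H} (hx : InBall S m x) (hy : InBall S n y) :
    InBall S (m + n) (x * y) := by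
  obtain ⟨l, h1, h2, h3⟩ := hx
  obtain ⟨l', h1', h2', h3'⟩ := hy
  refine ⟨l ++ l', by simp; omega, ?_, by simp [h3, h3']⟩
  intro s hs
  rcases List.mem_append.mp hs with h | h
  · exact h2 s h
  · exact h2' s h

theorem InBall.inv {n : ℕ} {x : H} (hx : InBall S n x) : InBall S n x⁻¹ := by
  obtain ⟨l, h1, h2, h3⟩ := hx
  refine ⟨(l.map fun s => s⁻¹).reverse, by simpa using h1, ?_, ?_⟩
  · intro s hs
    simp only [List.mem_reverse, List.mem_map] at hs
    obtain ⟨t, ht, rfl⟩ := hs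
    simpa [or_comm] using h2 t ht
  · rw [← h3, List.prod_inv_reverse]

theorem InBall.pow {x : H} (hx : InBall S 1 x) (n : ℕ) : InBall S n (x ^ n) := by
  induction n with
  | zero => simpa using InBall.one 0
  | succ n ih => rw [pow_succ]; exact ih.mul hx

theorem InBall.zpow {x : H} (hx : InBall S 1 x) (k : ℤ) (n : ℕ) (h : |k| ≤ n) :
    InBall S n (x ^ k) := by
  obtain ⟨m, rfl | rfl⟩ := k.eq_nat_or_neg
  · rw [zpow_natCast]
    exact (hx.pow m).mono (by simpa using h)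
  · rw [zpow_neg, zpow_natCast]
    exact (hx.pow m).inv.mono (by simpa using h)

theorem InBall.wordLength_le {n : ℕ} {x : H} (h : InBall S n x) : wordLength S x ≤ n := by
  obtain ⟨l, h1, h2, h3⟩ := h
  have : l.length ∈ {n : ℕ | ∃ l : List H, l.length = n ∧
    (∀ s ∈ l, s ∈ S ∨ s⁻¹ ∈ S) ∧ l.prod = x} := ⟨l, rfl, h2, h3⟩
  exact (Nat.sInf_le this).trans h1

theorem InBall.of_wordLength {m : ℕ} {x : H} (h : InBall S m x) :
    InBall S (wordLength S x) x := by
  obtain ⟨l, -, h2, h3⟩ := h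
  obtain ⟨l', h1', h2', h3'⟩ := Nat.sInf_mem (s := {n : ℕ | ∃ l : List H, l.length = n ∧
    (∀ s ∈ l, s ∈ S ∨ s⁻¹ ∈ S) ∧ l.prod = x}) ⟨_, l, rfl, h2, h3⟩
  exact ⟨l', h1'.le, h2', h3'⟩

theorem InBall.mem_closure {n : ℕ} {x : H} (h : InBall S n x) : x ∈ Subgroup.closure S := by
  obtain ⟨l, -, h2, rfl⟩ := h
  refine Subgroup.list_prod_mem _ fun s hs => ?_
  rcases h2 s hs with h | h
  · exact Subgroup.subset_closure h
  · exact (Subgroup.inv_mem_iff _).mp (Subgroup.subset_closure h)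

theorem InBall.induction {P : ℕ → H → Prop} (h0 : P 0 1)
    (hS : ∀ s, s ∈ S ∨ s⁻¹ ∈ S → P 1 s) (hmul : ∀ m n x y, P m x → P n y → P (m + n) (x * y))
    (hmono : ∀ m n x, P m x → m ≤ n → P n x) {n : ℕ} {x : H} (h : InBall S n x) : P n x := by
  obtain ⟨l, h1, h2, rfl⟩ := h
  refine hmono _ _ _ ?_ h1
  clear h1
  induction l with
  | nil => simpa using h0
  | cons s l ih =>
    rw [List.prod_cons, List.length_cons, add_comm]
    exact hmul _ _ _ _ (hS s (h2 s (by simp))) (ih fun t ht => h2 t (by simp [ht]))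

end Ball

end Pool.Agent.MP_c06449_al.H73
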