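import Pool.Agent.MP_c06449_al.H73.Fund

/-! The groups: a discrete nilpotent quotient `Dz` and its extension `G` by two copies of
`ℝ × K`. -/

namespace Pool.Agent.MP_c06449_al.H73

open MeasureTheory Set
open scoped ENNReal NNReal

/-- Integer coordinates. -/
@[ext] structure Dz where
  A : ℤ
  B : ℤ
  D : ℤ
  C : ℤ
  e : ℤ
  x : ℤ
  f3 : ℤ
  f2 : ℤ
  f1 : ℤ
  g5 : ℤ
  g4 : ℤ
  g3 : ℤ
  g2 : ℤ
  g1 : ℤ
  y : ℤ

namespace Dz

instance : Mul Dz := ⟨fun a b =>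
  { A := a.A + b.A, B := a.B + b.B, D := a.D + b.D, C := a.C + b.C, e := a.e + b.e
    x := a.x + b.x + a.B * b.C
    f3 := a.f3 + b.f3
    f2 := a.f2 + b.f2 + 3 * (a.e * b.f3)
    f1 := a.f1 + b.f1 + 2 * (a.e * b.f2) + 3 * (a.e ^ 2 * b.f3)
    g5 := a.g5 + b.g5
    g4 := a.g4 + b.g4 + 5 * (a.e * b.g5)
    g3 := a.g3 + b.g3 + 4 * (a.e * b.g4) + 10 * (a.e ^ 2 * b.g5)
    g2 := a.g2 + b.g2 + 3 * (a.e * b.g3) + 6 * (a.e ^ 2 * b.g4) + 10 * (a.e ^ 3 * b.g5)
    g1 := a.g1 + b.g1 + 2 * (a.e * b.g2) + 3 * (a.e ^ 2 * b.g3) + 4 * (a.e ^ 3 * b.g4)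
      + 5 * (a.e ^ 4 * b.g5)
    y := a.y + b.y + a.e * b.g1 + a.e ^ 2 * b.g2 + a.e ^ 3 * b.g3 + a.e ^ 4 * b.g4
      + a.e ^ 5 * b.g5 + a.D * b.C }⟩

instance : One Dz := ⟨⟨0, 0, 0, 0, 0, 0, 0, 0, 0, 0, 0, 0, 0, 0, 0⟩⟩

instance : Inv Dz := ⟨fun a =>
  { A := -a.A, B := -a.B, D := -a.D, C := -a.C, e := -a.e
    x := -a.x + a.B * a.C
    f3 := -a.f3
    f2 := -a.f2 + 3 * (a.e * a.f3)
    f1 := -a.f1 + 2 * (a.e * a.f2) - 3 * (a.e ^ 2 * a.f3)
    g5 := -a.g5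
    g4 := -a.g4 + 5 * (a.e * a.g5)
    g3 := -a.g3 + 4 * (a.e * a.g4) - 10 * (a.e ^ 2 * a.g5)
    g2 := -a.g2 + 3 * (a.e * a.g3) - 6 * (a.e ^ 2 * a.g4) + 10 * (a.e ^ 3 * a.g5)
    g1 := -a.g1 + 2 * (a.e * a.g2) - 3 * (a.e ^ 2 * a.g3) + 4 * (a.e ^ 3 * a.g4)
      - 5 * (a.e ^ 4 * a.g5)
    y := -a.y + a.e * a.g1 - a.e ^ 2 * a.g2 + a.e ^ 3 * a.g3 - a.e ^ 4 * a.g4
      + a.e ^ 5 * a.g5 + a.D * a.C }⟩

variable (a b : Dz)

@[simp] theorem mul_A : (a * b).A = a.A + b.A := rfl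
@[simp] theorem mul_B : (a * b).B = a.B + b.B := rfl
@[simp] theorem mul_D : (a * b).D = a.D + b.D := rfl
@[simp] theorem mul_C : (a * b).C = a.C + b.C := rfl
@[simp] theorem mul_e : (a * b).e = a.e + b.e := rfl
@[simp] theorem mul_x : (a * b).x = a.x + b.x + a.B * b.C := rfl
@[simp] theorem mul_f3 : (a * b).f3 = a.f3 + b.f3 := rfl
@[simp] theorem mul_f2 : (a * b).f2 = a.f2 + b.f2 + 3 * (a.e * b.f3) := rfl
@[simp] theorem mul_f1 :
    (a * b).f1 = a.f1 + b.f1 + 2 * (a.e * b.f2) + 3 * (a.e ^ 2 * b.f3) := rfl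
@[simp] theorem mul_g5 : (a * b).g5 = a.g5 + b.g5 := rfl
@[simp] theorem mul_g4 : (a * b).g4 = a.g4 + b.g4 + 5 * (a.e * b.g5) := rfl
@[simp] theorem mul_g3 :
    (a * b).g3 = a.g3 + b.g3 + 4 * (a.e * b.g4) + 10 * (a.e ^ 2 * b.g5) := rfl
@[simp] theorem mul_g2 : (a * b).g2 =
    a.g2 + b.g2 + 3 * (a.e * b.g3) + 6 * (a.e ^ 2 * b.g4) + 10 * (a.e ^ 3 * b.g5) := rfl
@[simp] theorem mul_g1 : (a * b).g1 = a.g1 + b.g1 + 2 * (a.e * b.g2) + 3 * (a.e ^ 2 * b.g3)
    + 4 * (a.e ^ 3 * b.g4) + 5 * (a.e ^ 4 * b.g5) := rfl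
@[simp] theorem mul_y : (a * b).y = a.y + b.y + a.e * b.g1 + a.e ^ 2 * b.g2 + a.e ^ 3 * b.g3
    + a.e ^ 4 * b.g4 + a.e ^ 5 * b.g5 + a.D * b.C := rfl

@[simp] theorem one_A : (1 : Dz).A = 0 := rfl
@[simp] theorem one_B : (1 : Dz).B = 0 := rfl
@[simp] theorem one_D : (1 : Dz).D = 0 := rfl
@[simp] theorem one_C : (1 : Dz).C = 0 := rfl
@[simp] theorem one_e : (1 : Dz).e = 0 := rfl
@[simp] theorem one_x : (1 : Dz).x = 0 := rfl
@[simp] theorem one_f3 : (1 : Dz).f3 = 0 := rfl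
@[simp] theorem one_f2 : (1 : Dz).f2 = 0 := rfl
@[simp] theorem one_f1 : (1 : Dz).f1 = 0 := rfl
@[simp] theorem one_g5 : (1 : Dz).g5 = 0 := rfl
@[simp] theorem one_g4 : (1 : Dz).g4 = 0 := rfl
@[simp] theorem one_g3 : (1 : Dz).g3 = 0 := rfl
@[simp] theorem one_g2 : (1 : Dz).g2 = 0 := rfl
@[simp] theorem one_g1 : (1 : Dz).g1 = 0 := rfl
@[simp] theorem one_y : (1 : Dz).y = 0 := rfl

@[simp] theorem inv_A : (a⁻¹).A = -a.A := rfl
@[simp] theorem inv_B : (a⁻¹).B = -a.B := rfl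
@[simp] theorem inv_D : (a⁻¹).D = -a.D := rfl
@[simp] theorem inv_C : (a⁻¹).C = -a.C := rfl
@[simp] theorem inv_e : (a⁻¹).e = -a.e := rfl
@[simp] theorem inv_x : (a⁻¹).x = -a.x + a.B * a.C := rfl
@[simp] theorem inv_f3 : (a⁻¹).f3 = -a.f3 := rfl
@[simp] theorem inv_f2 : (a⁻¹).f2 = -a.f2 + 3 * (a.e * a.f3) := rfl
@[simp] theorem inv_f1 : (a⁻¹).f1 = -a.f1 + 2 * (a.e * a.f2) - 3 * (a.e ^ 2 * a.f3) := rfl
@[simp] theorem inv_g5 : (a⁻¹).g5 = -a.g5 := rfl
@[simp] theorem inv_g4 : (a⁻¹).g4 = -a.g4 + 5 * (a.e * a.g5) := rfl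
@[simp] theorem inv_g3 : (a⁻¹).g3 = -a.g3 + 4 * (a.e * a.g4) - 10 * (a.e ^ 2 * a.g5) := rfl
@[simp] theorem inv_g2 : (a⁻¹).g2 =
    -a.g2 + 3 * (a.e * a.g3) - 6 * (a.e ^ 2 * a.g4) + 10 * (a.e ^ 3 * a.g5) := rfl
@[simp] theorem inv_g1 : (a⁻¹).g1 = -a.g1 + 2 * (a.e * a.g2) - 3 * (a.e ^ 2 * a.g3)
    + 4 * (a.e ^ 3 * a.g4) - 5 * (a.e ^ 4 * a.g5) := rfl
@[simp] theorem inv_y : (a⁻¹).y = -a.y + a.e * a.g1 - a.e ^ 2 * a.g2 + a.e ^ 3 * a.g3
    - a.e ^ 4 * a.g4 + a.e ^ 5 * a.g5 + a.D * a.C := rfl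

instance : Group Dz := Group.ofLeftAxioms
  (fun a b c => by ext <;> simp <;> ring)
  (fun a => by ext <;> simp)
  (fun a => by ext <;> simp <;> ring)

/-- The integer part of the cocycle of the coordinate `z`. -/
def cz (a b : Dz) : ℤ := a.e * b.f1 + a.e ^ 2 * b.f2 + a.e ^ 3 * b.f3 - a.B * b.A

/-- The integer part of the coordinate `z` of an inverse. -/
def iz (a : Dz) : ℤ := a.e * a.f1 - a.e ^ 2 * a.f2 + a.e ^ 3 * a.f3 - a.B * a.A

/-- The coordinates as a vector. -/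
def vec (a : Dz) : Fin 15 → ℤ :=
  ![a.A, a.B, a.D, a.C, a.e, a.x, a.f3, a.f2, a.f1, a.g5, a.g4, a.g3, a.g2, a.g1, a.y]

/-- The coordinates as an equivalence. -/
def equiv : Dz ≃ (Fin 15 → ℤ) where
  toFun := vec
  invFun v := ⟨v 0, v 1, v 2, v 3, v 4, v 5, v 6, v 7, v 8, v 9, v 10, v 11, v 12, v 13, v 14⟩
  left_inv _ := rfl
  right_inv v := by
    funext i
    fin_cases i <;> rfl

instance : Countable Dz := equiv.injective.countable
instance : TopologicalSpace Dz := ⊥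
instance : DiscreteTopology Dz := ⟨rfl⟩

end Dz

/-- The group attached to a ring `K` with an element `a`. -/
def G (K : Type) [CommRing K] (_a : K) : Type := Dz × (ℝ × K) × (ℝ × K)

namespace G

variable {K : Type} [CommRing K] {a : K}

/-- The unit of the cocycle. -/
def io (a : K) : ℝ × K := (1, a)

omit [CommRing K] in
@[simp] theorem io_fst : (io a).1 = 1 := rfl
omit [CommRing K] in
@[simp] theorem io_snd : (io a).2 = a := rfl

/-- Integer coordinates. -/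
def d (g : G K a) : Dz := g.1
/-- The coordinate `u`. -/
def u (g : G K a) : ℝ × K := g.2.1
/-- The coordinate `z`. -/
def z (g : G K a) : ℝ × K := g.2.2
/-- An element from its coordinates. -/
def mk (a : K) (d : Dz) (u z : ℝ × K) : G K a := (d, u, z)

@[simp] theorem mk_d (d : Dz) (u z : ℝ × K) : (mk a d u z).d = d := rfl
@[simp] theorem mk_u (d : Dz) (u z : ℝ × K) : (mk a d u z).u = u := rfl
@[simp] theorem mk_z (d : Dz) (u z : ℝ × K) : (mk a d u z).z = z := rfl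

theorem ext {g h : G K a} (h1 : g.d = h.d) (h2 : g.u = h.u) (h3 : g.z = h.z) : g = h :=
  Prod.ext h1 (Prod.ext h2 h3)

instance : Mul (G K a) := ⟨fun g h => mk a (g.d * h.d) (g.u + h.u)
  (g.z + h.z + (g.d.D : ℝ × K) * h.u + (Dz.cz g.d h.d : ℝ × K) * io a)⟩
instance : One (G K a) := ⟨mk a 1 0 0⟩
instance : Inv (G K a) := ⟨fun g => mk a g.d⁻¹ (-g.u)
  (-g.z + (g.d.D : ℝ × K) * g.u + (Dz.iz g.d : ℝ × K) * io a)⟩

variable (g h : G K a)

@[simp] theorem mul_d : (g * h).d = g.d * h.d := rfl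
@[simp] theorem mul_u : (g * h).u = g.u + h.u := rfl
@[simp] theorem mul_z : (g * h).z =
    g.z + h.z + (g.d.D : ℝ × K) * h.u + (Dz.cz g.d h.d : ℝ × K) * io a := rfl
@[simp] theorem one_d : (1 : G K a).d = 1 := rfl
@[simp] theorem one_u : (1 : G K a).u = 0 := rfl
@[simp] theorem one_z : (1 : G K a).z = 0 := rfl
@[simp] theorem inv_d : (g⁻¹).d = g.d⁻¹ := rfl
@[simp] theorem inv_u : (g⁻¹).u = -g.u := rfl
@[simp] theorem inv_z : (g⁻¹).z =
    -g.z + (g.d.D : ℝ × K) * g.u + (Dz.iz g.d : ℝ × K) * io a := rfl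

instance : Group (G K a) := Group.ofLeftAxioms
  (fun g h k => ext (mul_assoc _ _ _) (add_assoc _ _ _) (by simp [Dz.cz]; ring))
  (fun g => ext (one_mul _) (zero_add _) (by simp [Dz.cz]))
  (fun g => ext (inv_mul_cancel _) (neg_add_cancel _) (by simp [Dz.cz, Dz.iz]; ring))

variable [TopologicalSpace K]

instance : TopologicalSpace (G K a) :=
  inferInstanceAs (TopologicalSpace (Dz × (ℝ × K) × (ℝ × K)))

theorem continuous_d : Continuous (d : G K a → Dz) := continuous_fst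
theorem continuous_u : Continuous (u : G K a → ℝ × K) := continuous_fst.comp continuous_snd
theorem continuous_z : Continuous (z : G K a → ℝ × K) := continuous_snd.comp continuous_snd

theorem continuous_mk {X : Type} [TopologicalSpace X] {f1 : X → Dz} {f2 f3 : X → ℝ × K}
    (h1 : Continuous f1) (h2 : Continuous f2) (h3 : Continuous f3) :
    Continuous fun t => mk a (f1 t) (f2 t) (f3 t) := h1.prodMk (h2.prodMk h3)

instance [IsTopologicalRing K] : IsTopologicalGroup (G K a) where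
  continuous_mul := by
    have hd : Continuous fun p : G K a × G K a => (p.1.d, p.2.d) :=
      (continuous_d.comp continuous_fst).prodMk (continuous_d.comp continuous_snd)
    refine continuous_mk
      ((continuous_of_discreteTopology (f := fun q : Dz × Dz => q.1 * q.2)).comp hd)
      ((continuous_u.comp continuous_fst).add (continuous_u.comp continuous_snd)) ?_
    refine (((continuous_z.comp continuous_fst).add (continuous_z.comp continuous_snd)).add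
      (Continuous.mul ?_ (continuous_u.comp continuous_snd))).add (Continuous.mul ?_ continuous_const)
    · exact (continuous_of_discreteTopology
        (f := fun q : Dz × Dz => ((q.1.D : ℤ) : ℝ × K))).comp hd
    · exact (continuous_of_discreteTopology
        (f := fun q : Dz × Dz => ((Dz.cz q.1 q.2 : ℤ) : ℝ × K))).comp hd
  continuous_inv := by
    refine continuous_mk
      ((continuous_of_discreteTopology (f := fun q : Dz => q⁻¹)).comp continuous_d)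
      continuous_u.neg ?_
    refine (continuous_z.neg.add (Continuous.mul ?_ continuous_u)).add
      (Continuous.mul ?_ continuous_const)
    · exact (continuous_of_discreteTopology
        (f := fun q : Dz => ((q.D : ℤ) : ℝ × K))).comp continuous_d
    · exact (continuous_of_discreteTopology
        (f := fun q : Dz => ((Dz.iz q : ℤ) : ℝ × K))).comp continuous_d

instance [T2Space K] : T2Space (G K a) := inferInstanceAs (T2Space (Dz × (ℝ × K) × (ℝ × K)))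
instance [SecondCountableTopology K] : SecondCountableTopology (G K a) :=
  inferInstanceAs (SecondCountableTopology (Dz × (ℝ × K) × (ℝ × K)))
instance [LocallyCompactSpace K] : LocallyCompactSpace (G K a) :=
  inferInstanceAs (LocallyCompactSpace (Dz × (ℝ × K) × (ℝ × K)))
instance : MeasurableSpace (G K a) := borel _
instance : BorelSpace (G K a) := ⟨rfl⟩

end G

end Pool.Agent.MP_c06449_al.H73
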