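import Pool.Agent.MP_c06449_al.H73.Upper

/-! Lower bound for the covolume of lattices with large systole at scales where no denominator
of intermediate size is available. -/

namespace Pool.Agent.MP_c06449_al.H73

open MeasureTheory Set
open scoped ENNReal NNReal

theorem exists_min {H : Type} [Group H] (T : H → Prop) (φ : H → ℤ)
    (hinv : ∀ g, T g → T g⁻¹ ∧ φ g⁻¹ = -φ g) :
    (∀ g, T g → φ g = 0) ∨ ∃ n : ℕ, 0 < n ∧ (∃ g, T g ∧ φ g = n) ∧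
      ∀ g, T g → |φ g| < n → φ g = 0 := by
  classical
  have key : ∀ g, T g → φ g ≠ 0 → 0 < (φ g).natAbs ∧ ∃ g', T g' ∧ φ g' = (φ g).natAbs := by
    intro g hg h
    refine ⟨Int.natAbs_pos.mpr h, ?_⟩
    rcases Int.natAbs_eq (φ g) with h1 | h1
    · exact ⟨g, hg, h1⟩
    · exact ⟨g⁻¹, (hinv g hg).1, by rw [(hinv g hg).2]; omega⟩
  by_cases h : ∀ g, T g → φ g = 0
  · exact Or.inl h
  · push Not at h
    obtain ⟨g, hg, h⟩ := h
    have hex : ∃ n : ℕ, 0 < n ∧ ∃ g, T g ∧ φ g = n := ⟨_, key g hg h⟩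
    refine Or.inr ⟨Nat.find hex, (Nat.find_spec hex).1, (Nat.find_spec hex).2, fun g hg h => ?_⟩
    by_contra hne
    have := Nat.find_min' hex (key g hg hne)
    rw [Int.abs_eq_natAbs] at h
    omega

namespace G

variable {K : Type} [CommRing K] {a : K}

theorem vec_mul {g : G K a} (hg : LA g) (p : G K a) (i : Fin 15) :
    (g * p).d.vec i = g.d.vec i + p.d.vec i := by
  obtain ⟨h1, h2, h3, h4⟩ := hg
  fin_cases i <;> simp [Dz.vec, *]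

theorem Box.inv_of_LA {g : G K a} {n : ℕ} (hg : LA g) (hb : g.Box n) : g⁻¹.Box n := by
  obtain ⟨h1, h2, h3, h4⟩ := hg
  obtain ⟨⟨hA, hB, hD, hC, he, hx, hf3, hf2, hf1, hg5, hg4, hg3, hg2, hg1, hy⟩, hu, hz⟩ := hb
  refine ⟨?_, by simpa using hu, by simpa [Dz.iz, h1, h2, h4] using hz⟩
  constructor <;> simp [*]

/-- Central elements. -/
def cen (a : K) (y : ℤ) (z : ℝ × K) : G K a :=
  mk a ⟨0, 0, 0, 0, 0, 0, 0, 0, 0, 0, 0, 0, 0, 0, y⟩ 0 z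

/-- The central elements of a subgroup. -/
def cenSub (Γ : Subgroup (G K a)) : AddSubgroup (ℤ × (ℝ × K)) where
  carrier := {p | cen a p.1 p.2 ∈ Γ}
  zero_mem' := Γ.one_mem
  add_mem' := fun {p q} hp hq => by
    have : cen a (p + q).1 (p + q).2 = cen a p.1 p.2 * cen a q.1 q.2 :=
      ext (by ext <;> simp [cen]) (by simp [cen]) (by simp [cen, Dz.cz])
    exact (this ▸ Γ.mul_mem hp hq : cen a _ _ ∈ Γ)
  neg_mem' := fun {p} hp => by
    have : cen a (-p).1 (-p).2 = (cen a p.1 p.2)⁻¹ :=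
      ext (by ext <;> simp [cen]) (by simp [cen]) (by simp [cen, Dz.iz])
    exact (this ▸ Γ.inv_mem hp : cen a _ _ ∈ Γ)

theorem comm_mem {Γ : Subgroup (G K a)} {g h : G K a} (hg : g ∈ Γ) (hh : h ∈ Γ) :
    g * h * g⁻¹ * h⁻¹ ∈ Γ := mul_mem (mul_mem (mul_mem hg hh) (inv_mem hg)) (inv_mem hh)

theorem comm_AB {Γ : Subgroup (G K a)} {g h : G K a} (hg : g ∈ Γ) (hh : h ∈ Γ) (h1 : LA g)
    (h2 : g.u = 0) (h3 : h.d.e = 0) (h4 : h.d.C = 0) :
    ((0 : ℤ), ((g.d.A * h.d.B : ℤ) : ℝ × K) * io a) ∈ cenSub Γ := by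
  obtain ⟨h5, h6, h7, h8⟩ := h1
  have : g * h * g⁻¹ * h⁻¹ = cen a 0 (((g.d.A * h.d.B : ℤ) : ℝ × K) * io a) :=
    ext (by ext <;> simp [cen, *]) (by simp [cen, *]) (by simp [cen, Dz.cz, Dz.iz, *]; ring)
  exact (this ▸ comm_mem hg hh : cen a 0 _ ∈ Γ)

theorem comm_Du {Γ : Subgroup (G K a)} {g h : G K a} (hg : g ∈ Γ) (hh : h ∈ Γ) (h1 : LA h)
    (h2 : g.d.e = 0) (h3 : g.d.C = 0) (h4 : g.d.B = 0) :
    ((0 : ℤ), (g.d.D : ℝ × K) * h.u) ∈ cenSub Γ := by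
  obtain ⟨h5, h6, h7, h8⟩ := h1
  have : g * h * g⁻¹ * h⁻¹ = cen a 0 ((g.d.D : ℝ × K) * h.u) :=
    ext (by ext <;> simp [cen, *]) (by simp [cen, *]) (by simp [cen, Dz.cz, Dz.iz, *]; ring)
  exact (this ▸ comm_mem hg hh : cen a 0 _ ∈ Γ)

theorem comm_DC {Γ : Subgroup (G K a)} {g h : G K a} (hg : g ∈ Γ) (hh : h ∈ Γ)
    (h1 : h.d.e = 0) (h2 : g.d.e = 0) (h3 : g.d.C = 0) (h4 : g.d.B = 0) :
    ∃ z, (g.d.D * h.d.C, z) ∈ cenSub Γ := by
  have : g * h * g⁻¹ * h⁻¹ = cen a (g.d.D * h.d.C) (g * h * g⁻¹ * h⁻¹).z :=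
    ext (by ext <;> simp [cen, *]; ring) (by simp [cen, *]) rfl
  exact ⟨_, (this ▸ comm_mem hg hh : cen a _ _ ∈ Γ)⟩

/-- Change the coordinate `f3` and forget `u`. -/
def set3 (g : G K a) (f : ℤ) : G K a := mk a { g.d with f3 := f } 0 g.z

/-- The commutator of `E ^ n` with the element `f3 = f`. -/
def yel (a : K) (n f : ℤ) : G K a :=
  mk a ⟨0, 0, 0, 0, 0, 0, 0, 3 * (n * f), 3 * (n ^ 1 * (n * f)), 0, 0, 0, 0, 0, 0⟩ 0
    ((n ^ 2 * (n * f) : ℤ) * io a)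

theorem comm_E (E : G K a) {g : G K a} (h0 : L0 g) : E * g * E⁻¹ * g⁻¹ =
    pure a 4 E.d.e * set3 g 0 * (pure a 4 E.d.e)⁻¹ *
      (set3 g 0)⁻¹ * yel a E.d.e g.d.f3 := by
  obtain ⟨⟨⟨h3, h4, h5, h6⟩, h7⟩, h8⟩ := h0
  refine ext ?_ (by simp [set3, yel, pure, *]) ?_
  · ext <;> simp [set3, yel, pure, *] <;> ring
  · simp [set3, yel, pure, Dz.cz, Dz.iz, *]; ring

theorem box_yel {n f : ℤ} {ρ : ℕ} (h1 : |n| ≤ ρ) (h2 : |n * f| ≤ ρ ^ 2) : (yel a n f).Box ρ := by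
  have h9 := abs_le.mpr (abs_pm 1 h1 h2)
  have h10 := abs_le.mpr (abs_pm 2 h1 h2)
  have hp : ∀ w, (0 : ℤ) ≤ ρ ^ w := fun w => by positivity
  have h3 : |(3 : ℤ)| = 3 := rfl
  refine ⟨?_, by simp [yel], ?_⟩
  · constructor <;> simp only [yel, mk_d, abs_zero, abs_mul (3 : ℤ), h3] <;> first
      | positivity
      | linarith [hp 2, hp 3]
  · have : |n ^ 2 * (n * f)| ≤ ρ ^ 4 + ρ ^ 2 := by linarith [hp 2]
    simp only [yel, mk_z, Prod.fst_mul, Prod.fst_intCast, io_fst, mul_one]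
    exact_mod_cast this

section NoShort

variable {Γ : Subgroup (G K a)} {ρ : ℕ} (hρ : 1 ≤ ρ)
  (hNS : ∀ g ∈ Γ, LA g → g.Box (5 * ρ) → g = 1)
include hNS

theorem cen_short {y : ℤ} {z : ℝ × K} (h : (y, z) ∈ cenSub Γ) (hy : |y| ≤ ρ ^ 6)
    (hz : |z.1| ≤ ρ ^ 4) : y = 0 ∧ z = 0 := by
  have h1 : (cen a y z).Box ρ := by
    refine ⟨?_, by simp [cen], hz.trans (le_add_of_nonneg_right (by positivity))⟩
    constructor <;> simp [cen]
    exact hy.trans (le_add_of_nonneg_right (by positivity))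
  have h2 := hNS _ h (by simp [LA, cen]) (h1.mono (by omega))
  exact ⟨congrArg (fun g : G K a => g.d.y) h2, congrArg G.z h2⟩

theorem f3_zero {E g : G K a} (hE : E ∈ Γ) (hg : g ∈ Γ) (h0 : L0 g) (he : E.d.e ≠ 0)
    (h1 : |E.d.e| ≤ ρ) (h2 : |E.d.e * g.d.f3| ≤ ρ ^ 2)
    (hb : (set3 g 0).Box ρ) : g.d.f3 = 0 := by
  have hEb := inBall_pure (a := a) 4 E.d.e ρ h1
  have hL : LA (set3 g 0) := h0.1.1
  have hb5 := ((((box_of_inBall hEb).mul hb).mul (box_of_inBall hEb.inv)).mul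
    (hb.inv_of_LA hL)).mul (box_yel h1 h2)
  have hb6 : (E * g * E⁻¹ * g⁻¹).Box (5 * ρ) := by
    rw [comm_E E h0, show 5 * ρ = ρ + ρ + ρ + ρ + ρ by ring]
    exact hb5
  clear hb5 hb hL hEb
  obtain ⟨⟨⟨h3, h4, h5, h6⟩, h7⟩, h8⟩ := h0
  have hL' : LA (E * g * E⁻¹ * g⁻¹) := by simp [LA, h3, h4, h5, h6]
  have h11 := hNS _ (comm_mem hE hg) hL' hb6
  have h12 : (E * g * E⁻¹ * g⁻¹).d.f2 = 0 := by rw [h11]; rfl
  have h13 : 3 * (E.d.e * g.d.f3) = 0 := by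
    simp only [mul_d, inv_d, Dz.mul_f2, Dz.inv_f2, Dz.mul_e, Dz.inv_e, Dz.inv_f3, h6] at h12
    linear_combination h12
  simpa [he] using h13

theorem prod_ten {α y : ℕ} (hα : 0 < α) (hy : 0 < y) {z : ℝ × K}
    (h1 : ((0 : ℤ), ((α : ℤ) : ℝ × K) * io a) ∈ cenSub Γ) (h2 : ((y : ℤ), z) ∈ cenSub Γ) :
    ρ ^ 10 ≤ α * y := by
  have hα' : (0 : ℝ) < α := by exact_mod_cast hα
  rcases le_or_gt y (ρ ^ 6) with h | h
  · obtain ⟨j, k, hk0, hk, hj⟩ := Real.exists_int_int_abs_mul_sub_le (z.1 / α)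
      (Nat.div_pos h hy)
    have h3 := sub_mem (zsmul_mem h2 k) (zsmul_mem h1 j)
    simp only [Prod.smul_mk, Prod.mk_sub_mk, smul_eq_mul, mul_zero, sub_zero] at h3
    have h4 : |k * (y : ℤ)| ≤ ρ ^ 6 := by
      rw [abs_of_nonneg (by positivity)]
      have : ((ρ ^ 6 / y * y : ℕ) : ℤ) ≤ (ρ ^ 6 : ℕ) := by exact_mod_cast Nat.div_mul_le_self _ _
      push_cast at this hk
      nlinarith
    by_contra hlt
    have h5 : ρ ^ 6 < (ρ ^ 6 / y + 1) * y := by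
      have := Nat.div_add_mod (ρ ^ 6) y
      have := Nat.mod_lt (ρ ^ 6) hy
      nlinarith
    have h6 : α ≤ ρ ^ 4 * (ρ ^ 6 / y + 1) := by
      refine Nat.le_of_mul_le_mul_right ?_ hy
      calc α * y ≤ ρ ^ 4 * ρ ^ 6 := by rw [← pow_add]; exact (not_le.mp hlt).le
        _ ≤ _ := by rw [mul_assoc]; gcongr
    have h7 : (α : ℝ) ≤ ρ ^ 4 * ((ρ ^ 6 / y : ℕ) + 1) := by exact_mod_cast h6
    have h8 := (cen_short hNS h3 h4 (by
      have : (k • z - j • (((α : ℤ) : ℝ × K) * io a)).1 = (k * (z.1 / α) - j) * α := by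
        simp; field_simp
      rw [this, abs_mul, abs_of_pos hα']
      refine (mul_le_mul_of_nonneg_right hj hα'.le).trans ?_
      rw [one_div, inv_mul_le_iff₀ (by positivity)]
      linarith)).1
    have : (0 : ℤ) < k * y := by positivity
    omega
  · have h3 : ρ ^ 4 ≤ α := by
      by_contra hlt
      have h4 : (α : ℝ) ≤ ρ ^ 4 := by exact_mod_cast (not_le.mp hlt).le
      have h5 := (cen_short hNS h1 (by simp) (by simpa using h4)).2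
      have h6 := congrArg Prod.fst h5
      simp at h6
      omega
    calc ρ ^ 10 = ρ ^ 4 * ρ ^ 6 := by ring
      _ ≤ _ := by gcongr

include hρ in
theorem u_zero (hK : ∀ (k : ℤ) (u : ℝ × K), k ≠ 0 → k * u = 0 → u = 0) {Q P α β : ℕ}
    (hdiv : ∀ (k j : ℤ) (v : K), k ≠ 0 → |k| < P → k * v = j * a → k ∣ j * Q)
    (hα : 0 < α) (hβ : 0 < β) (hP : α * β < P) (hQ : 0 < Q) {u : ℝ × K}
    (h1 : ((0 : ℤ), ((α : ℤ) : ℝ × K) * io a) ∈ cenSub Γ)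
    (h2 : ((0 : ℤ), ((β : ℤ) : ℝ × K) * u) ∈ cenSub Γ) (hu : |u.1| < 1 / Q) : u = 0 := by
  have hα' : (0 : ℝ) < α := by exact_mod_cast hα
  have hQ' : (0 : ℝ) < Q := by exact_mod_cast hQ
  obtain ⟨j, k, hk0, hk, hj⟩ := Real.exists_int_int_abs_mul_sub_le (β * u.1 / α) hα
  have h3 := sub_mem (zsmul_mem h2 k) (zsmul_mem h1 j)
  simp only [Prod.smul_mk, Prod.mk_sub_mk, smul_eq_mul, mul_zero, sub_zero] at h3
  have h4 := (cen_short hNS h3 (by simp) (by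
    have : (k • (((β : ℤ) : ℝ × K) * u) - j • (((α : ℤ) : ℝ × K) * io a)).1 =
        (k * (β * u.1 / α) - j) * α := by
      simp; field_simp
    rw [this, abs_mul, abs_of_pos hα']
    refine (mul_le_mul_of_nonneg_right hj hα'.le).trans ?_
    rw [one_div, inv_mul_le_iff₀ (by positivity)]
    have : (1 : ℝ) ≤ ρ ^ 4 := one_le_pow₀ (by exact_mod_cast hρ)
    nlinarith)).2
  have h5 : ((k * β : ℤ) : ℝ × K) * u = ((j * α : ℤ) : ℝ × K) * io a := by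
    simp only [zsmul_eq_mul] at h4
    push_cast at h4 ⊢
    linear_combination h4
  have hkβ : 0 < k * β := by positivity
  obtain ⟨m, hm⟩ := hdiv (k * β) (j * α) u.2 hkβ.ne' (by
    rw [abs_of_pos hkβ]
    have : ((α * β : ℕ) : ℤ) < P := by exact_mod_cast hP
    push_cast at this
    nlinarith) (by simpa using congrArg Prod.snd h5)
  have h6 : ((k * β : ℤ) : ℝ) * u.1 = ((j * α : ℤ) : ℝ) := by simpa using congrArg Prod.fst h5
  have h7 : u.1 * Q = m := by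
    have h8 : ((k * β : ℤ) : ℝ) ≠ 0 := by exact_mod_cast hkβ.ne'
    have h9 : ((j * α : ℤ) : ℝ) * Q = ((k * β : ℤ) : ℝ) * m := by exact_mod_cast hm
    apply mul_left_cancel₀ h8
    rw [← h9, ← h6]; ring
  have h10 : |(m : ℝ)| < 1 := by
    rw [← h7, abs_mul, abs_of_pos hQ']
    exact (lt_div_iff₀ hQ').mp hu
  have h11 : m = 0 := Int.abs_lt_one_iff.mp (by exact_mod_cast h10)
  have h12 : j * α = 0 := by
    rw [h11, mul_zero] at hm
    exact (mul_eq_zero.mp hm).resolve_right (by exact_mod_cast hQ.ne')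
  rw [h12, Int.cast_zero, zero_mul] at h5
  exact hK _ _ hkβ.ne' h5

end NoShort

end G

end Pool.Agent.MP_c06449_al.H73
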