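import Pool.Agent.MP_c06449_al.H73.Grp

/-! Haar measure of coordinate boxes. -/

namespace Pool.Agent.MP_c06449_al.H73

open MeasureTheory Set
open scoped ENNReal NNReal

namespace G

variable {K : Type} [CommRing K] {a : K}

/-- A half-open coordinate box. -/
def Bx (a : K) (lo : Fin 15 → ℤ) (N : Fin 15 → ℕ) (s l t m : ℝ) : Set (G K a) :=
  {h | (∀ i, lo i ≤ h.d.vec i ∧ h.d.vec i < lo i + N i) ∧ h.u.1 ∈ Ico s (s + l) ∧
    h.z.1 ∈ Ico t (t + m)}

/-- The real parts of `u` and `z`. -/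
def re (h : G K a) : ℝ × ℝ := (h.u.1, h.z.1)

variable [TopologicalSpace K]

theorem continuous_re : Continuous (re : G K a → ℝ × ℝ) :=
  (continuous_fst.comp continuous_u).prodMk (continuous_fst.comp continuous_z)

theorem measurableSet_cell (δ : Dz) {Y : Set (ℝ × ℝ)} (hY : MeasurableSet Y) :
    MeasurableSet {h : G K a | h.d = δ ∧ h.re ∈ Y} :=
  ((isOpen_discrete {δ}).preimage continuous_d).measurableSet.inter (continuous_re.measurable hY)

theorem measurableSet_Bx (lo : Fin 15 → ℤ) (N : Fin 15 → ℕ) (s l t m : ℝ) :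
    MeasurableSet (Bx a lo N s l t m) :=
  ((isOpen_discrete {δ : Dz | ∀ i, lo i ≤ δ.vec i ∧ δ.vec i < lo i + N i}).preimage
    continuous_d).measurableSet.inter
    (continuous_re.measurable (measurableSet_Ico.prod measurableSet_Ico))

theorem finite_vec (M : ℤ) : {δ : Dz | ∀ i, |δ.vec i| ≤ M}.Finite := by
  have h : {v : Fin 15 → ℤ | ∀ i, v i ∈ Icc (-M) M}.Finite := Finite.pi' fun _ => finite_Icc _ _
  refine (h.preimage Dz.equiv.injective.injOn).subset fun δ hδ i => ?_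
  exact abs_le.mp (hδ i)

theorem isCompact_box [CompactSpace K] (M : ℤ) (R : ℝ) :
    IsCompact {h : G K a | (∀ i, |h.d.vec i| ≤ M) ∧ |h.u.1| ≤ R ∧ |h.z.1| ≤ R} := by
  have h1 : IsCompact ((Icc (-R) R) ×ˢ (univ : Set K)) := isCompact_Icc.prod isCompact_univ
  have h2 := (finite_vec M).isCompact.prod (h1.prod h1)
  have h3 : IsCompact (X := G K a) ({δ : Dz | ∀ i, |δ.vec i| ≤ M} ×ˢ
      ((Icc (-R) R) ×ˢ (univ : Set K)) ×ˢ ((Icc (-R) R) ×ˢ (univ : Set K))) := h2
  convert h3 using 1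
  ext h
  simp only [mem_ofPred_eq, abs_le (a := h.u.1), abs_le (a := h.z.1)]
  constructor
  · rintro ⟨h1, h2, h3⟩
    exact ⟨h1, ⟨h2, trivial⟩, ⟨h3, trivial⟩⟩
  · rintro ⟨h1, h2, h3⟩
    exact ⟨h1, h2.1, h3.1⟩

theorem vol_shear (s l t m k : ℝ) :
    volume {v : ℝ × ℝ | v.1 ∈ Ico s (s + l) ∧ v.2 + k * v.1 ∈ Ico t (t + m)} =
      ENNReal.ofReal l * ENNReal.ofReal m := by
  have hm : MeasurableSet {v : ℝ × ℝ | v.1 ∈ Ico s (s + l) ∧ v.2 + k * v.1 ∈ Ico t (t + m)} :=
    (measurable_fst measurableSet_Ico).inter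
      ((measurable_snd.add (measurable_fst.const_mul k)) measurableSet_Ico)
  rw [Measure.volume_eq_prod, Measure.prod_apply hm]
  have : ∀ x : ℝ, volume (Prod.mk x ⁻¹'
      {v : ℝ × ℝ | v.1 ∈ Ico s (s + l) ∧ v.2 + k * v.1 ∈ Ico t (t + m)}) =
      (Ico s (s + l)).indicator (fun _ => ENNReal.ofReal m) x := by
    intro x
    by_cases hx : x ∈ Ico s (s + l)
    · rw [indicator_of_mem hx]
      have : Prod.mk x ⁻¹' {v : ℝ × ℝ | v.1 ∈ Ico s (s + l) ∧ v.2 + k * v.1 ∈ Ico t (t + m)} =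
          (fun w => w + k * x) ⁻¹' Ico t (t + m) := by
        ext w; simp only [mem_preimage, mem_ofPred_eq, hx, true_and]
      rw [this, measure_preimage_add_right]; simp
    · rw [indicator_of_notMem hx]
      have : Prod.mk x ⁻¹' {v : ℝ × ℝ | v.1 ∈ Ico s (s + l) ∧ v.2 + k * v.1 ∈ Ico t (t + m)} =
          ∅ := by
        ext w; simp only [mem_preimage, mem_ofPred_eq, hx, false_and, mem_empty_iff_false]
      rw [this, measure_empty]
  simp_rw [this]
  rw [lintegral_indicator_const measurableSet_Ico]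
  simp [mul_comm]

variable [IsTopologicalRing K] [CompactSpace K]

theorem exists_cell_const (μ : Measure (G K a)) [μ.IsHaarMeasure] :
    ∃ c : ℝ≥0, 0 < c ∧ ∀ Y : Set (ℝ × ℝ), MeasurableSet Y →
      μ {h : G K a | h.d = 1 ∧ h.re ∈ Y} = c * volume Y := by
  let O : Set (G K a) := {h | h.d = 1}
  have hO : IsOpen O := (isOpen_discrete {(1 : Dz)}).preimage continuous_d
  let ν : Measure (ℝ × ℝ) := (μ.restrict O).map re
  have hν : ∀ Y : Set (ℝ × ℝ), MeasurableSet Y → ν Y = μ {h : G K a | h.d = 1 ∧ h.re ∈ Y} := by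
    intro Y hY
    rw [Measure.map_apply continuous_re.measurable hY,
      Measure.restrict_apply (continuous_re.measurable hY)]
    congr 1
    ext h
    exact and_comm
  have : ν.IsAddLeftInvariant := by
    refine ⟨fun v => ?_⟩
    ext Y hY
    rw [Measure.map_apply (measurable_const_add v) hY, hν _ (measurable_const_add v hY), hν _ hY,
      ← measure_preimage_mul μ (mk a 1 (v.1, 0) (v.2, 0)) {h : G K a | h.d = 1 ∧ h.re ∈ Y}]
    congr 1
    ext h
    have : (mk a 1 (v.1, 0) (v.2, 0) * h).re = v + h.re := by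
      ext <;> simp [re, Dz.cz]
    simp [this]
  have : IsFiniteMeasureOnCompacts ν := by
    refine ⟨fun Y hY => ?_⟩
    rw [hν _ hY.measurableSet]
    obtain ⟨R, hR⟩ := hY.isBounded.exists_norm_le
    refine lt_of_le_of_lt (measure_mono ?_) (isCompact_box (a := a) 0 R).measure_lt_top
    rintro h ⟨h1, h2⟩
    have h3 := hR _ h2
    refine ⟨fun i => ?_, (norm_fst_le h.re).trans h3, (norm_snd_le h.re).trans h3⟩
    rw [h1]
    fin_cases i <;> simp [Dz.vec]
  have hc := Measure.isAddLeftInvariant_eq_smul ν (volume : Measure (ℝ × ℝ))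
  refine ⟨Measure.addHaarScalarFactor ν volume, ?_, fun Y hY => ?_⟩
  · rw [pos_iff_ne_zero]
    intro h0
    rw [h0, zero_smul] at hc
    have h1 := hν univ MeasurableSet.univ
    rw [hc] at h1
    have h2 : μ O ≠ 0 := hO.measure_ne_zero μ ⟨1, rfl⟩
    apply h2
    simpa using h1.symm
  · rw [← hν Y hY]
    conv_lhs => rw [hc]
    rfl

theorem exists_box_const (μ : Measure (G K a)) [μ.IsHaarMeasure] :
    ∃ c : ℝ≥0, 0 < c ∧ ∀ (lo : Fin 15 → ℤ) (N : Fin 15 → ℕ) (s l t m : ℝ),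
      μ (Bx a lo N s l t m) = c * ((∏ i, N i : ℕ) * (ENNReal.ofReal l * ENNReal.ofReal m)) := by
  classical
  obtain ⟨c, hc, h⟩ := exists_cell_const μ
  refine ⟨c, hc, fun lo N s l t m => ?_⟩
  have hcell : ∀ δ : Dz, μ {h : G K a | h.d = δ ∧ h.re ∈ Ico s (s + l) ×ˢ Ico t (t + m)} =
      c * (ENNReal.ofReal l * ENNReal.ofReal m) := by
    intro δ
    have hm : MeasurableSet
        {v : ℝ × ℝ | v.1 ∈ Ico s (s + l) ∧ v.2 + (δ.D : ℝ) * v.1 ∈ Ico t (t + m)} :=
      (measurable_fst measurableSet_Ico).inter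
        ((measurable_snd.add (measurable_fst.const_mul _)) measurableSet_Ico)
    rw [← vol_shear s l t m δ.D, ← h _ hm, ← measure_preimage_mul μ (mk a δ 0 0)]
    congr 1
    ext g
    simp only [mem_preimage, mem_ofPred_eq, mul_d, mk_d, mul_eq_left]
    refine and_congr_right fun hg => ?_
    simp [re, hg, Dz.cz]
  let Φ : Finset Dz := (Fintype.piFinset fun i => Finset.Ico (lo i) (lo i + N i)).map
    Dz.equiv.symm.toEmbedding
  have hB : Bx a lo N s l t m =
      ⋃ δ ∈ Φ, {h : G K a | h.d = δ ∧ h.re ∈ Ico s (s + l) ×ˢ Ico t (t + m)} := by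
    ext g
    simp only [Bx, mem_ofPred_eq, mem_iUnion, exists_prop, Φ, Finset.mem_map_equiv,
      Fintype.mem_piFinset, Finset.mem_Ico, Equiv.symm_symm]
    constructor
    · rintro ⟨h1, h2⟩
      exact ⟨g.d, h1, rfl, h2⟩
    · rintro ⟨δ, h1, rfl, h2⟩
      exact ⟨h1, h2⟩
  rw [hB, measure_biUnion_finset]
  · simp only [hcell, Finset.sum_const, nsmul_eq_mul, Φ, Finset.card_map, Fintype.card_piFinset,
      Int.card_Ico, add_sub_cancel_left, Int.toNat_natCast]
    ring
  · intro δ _ δ' _ hne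
    refine Set.disjoint_left.mpr fun g h1 h2 => hne ?_
    exact h1.1.symm.trans h2.1
  · exact fun δ _ => measurableSet_cell δ (measurableSet_Ico.prod measurableSet_Ico)

end G

end Pool.Agent.MP_c06449_al.H73
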