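import Pool.Agent.MP_c06449_al.H73.Lower

/-! Packings along the flag `A < u < D < B < C < e` and the lower bound. -/

namespace Pool.Agent.MP_c06449_al.H73

open MeasureTheory Set
open scoped ENNReal NNReal

namespace G

variable {K : Type} [CommRing K] {a : K} [TopologicalSpace K] [IsTopologicalRing K]
  [SecondCountableTopology K] {μ : Measure (G K a)} [μ.IsHaarMeasure] {c : ℝ≥0}
  (hc : ∀ (lo : Fin 15 → ℤ) (N : Fin 15 → ℕ) (s l t m : ℝ),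
    μ (Bx a lo N s l t m) = c * ((∏ i, N i : ℕ) * (ENNReal.ofReal l * ENNReal.ofReal m)))
  {Γ : Subgroup (G K a)} [DiscreteTopology Γ]
include hc

theorem pack (N : Fin 15 → ℕ) (l m : ℝ)
    (he : ∀ g, g ∈ Γ → |g.d.e| < N 4 → g.d.e = 0)
    (hC : ∀ g, g ∈ Γ ∧ g.d.e = 0 → |g.d.C| < N 3 → g.d.C = 0)
    (hB : ∀ g, g ∈ Γ ∧ g.d.e = 0 ∧ g.d.C = 0 → |g.d.B| < N 1 → g.d.B = 0)
    (hD : ∀ g, g ∈ Γ ∧ g.d.e = 0 ∧ g.d.C = 0 ∧ g.d.B = 0 → |g.d.D| < N 2 → g.d.D = 0)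
    (h0 : ∀ g ∈ Γ, LA g → (∀ i, |g.d.vec i| < N i) → |g.u.1| < l → |g.z.1| < m → g = 1) :
    c * ((∏ i, N i : ℕ) * (ENNReal.ofReal l * ENNReal.ofReal m)) ≤ covolume Γ (G K a) μ := by
  rw [← hc 0 N 0 l 0 m]
  refine pack_le_covol Γ μ _ (measurableSet_Bx _ _ _ _ _ _) ?_
  rintro g hg p ⟨h1, h2, h3⟩ ⟨h4, h5, h6⟩
  have key : ∀ i, (g * p).d.vec i = g.d.vec i + p.d.vec i → |g.d.vec i| < N i := by
    intro i hi
    have h7 := h1 i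
    have h8 := h4 i
    simp only [Pi.zero_apply, zero_add] at h7 h8
    rw [abs_lt]; constructor <;> linarith [h7.1, h7.2, h8.1, h8.2]
  have e1 := he g hg (key 4 rfl)
  have e2 := hC g ⟨hg, e1⟩ (key 3 rfl)
  have e3 := hB g ⟨hg, e1, e2⟩ (key 1 rfl)
  have e4 := hD g ⟨hg, e1, e2, e3⟩ (key 2 rfl)
  have hL : LA g := ⟨e3, e4, e2, e1⟩
  refine h0 g hg hL (fun i => key i (vec_mul hL p i)) ?_ ?_
  · simp only [mul_u, Prod.fst_add, mem_Ico, zero_add] at h2 h5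
    rw [abs_lt]; constructor <;> linarith [h2.1, h2.2, h5.1, h5.2]
  · simp only [mul_z, Prod.fst_add, mem_Ico, zero_add, Dz.cz, e1, e3, e4] at h3 h6
    simp at h6
    rw [abs_lt]; constructor <;> linarith [h3.1, h3.2, h6.1, h6.2]

variable {ρ : ℕ} (hρ : 1 ≤ ρ) (hNS : ∀ g ∈ Γ, LA g → g.Box (5 * ρ) → g = 1)
include hρ hNS

theorem pack1 (nA nB nD nC ne : ℕ) (l : ℝ)
    (he : ∀ g, g ∈ Γ → |g.d.e| < ne → g.d.e = 0)
    (hC : ∀ g, g ∈ Γ ∧ g.d.e = 0 → |g.d.C| < nC → g.d.C = 0)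
    (hB : ∀ g, g ∈ Γ ∧ g.d.e = 0 ∧ g.d.C = 0 → |g.d.B| < nB → g.d.B = 0)
    (hD : ∀ g, g ∈ Γ ∧ g.d.e = 0 ∧ g.d.C = 0 ∧ g.d.B = 0 → |g.d.D| < nD → g.d.D = 0)
    (h0 : ∀ g ∈ Γ, LA g → |g.d.A| < nA → |g.u.1| < l → g.d.A = 0 ∧ |g.u.1| ≤ 1) :
    c * ((nA * nB * nD * nC * ne : ℕ) * ENNReal.ofReal l) ≤ covolume Γ (G K a) μ := by
  have := pack hc ![nA, nB, nD, nC, ne, 1, 1, 1, 1, 1, 1, 1, 1, 1, 1] l 1 he hC hB hD (by
    intro g hg hL hv hu hz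
    obtain ⟨h1, h2⟩ := h0 g hg hL (hv 0) hu
    refine hNS g hg hL (Box.mono (m := 1) ⟨Dz.box_of_vec le_rfl fun i => ?_, by simpa using h2,
      by simp; linarith⟩ (by omega))
    obtain ⟨h3, h4, h5, h6⟩ := hL
    have := hv i
    fin_cases i <;> first
      | (simp [Dz.vec, h1, h3, h4, h5, h6]; done)
      | exact this.le)
  simpa [Fin.prod_univ_succ, mul_assoc] using this

theorem lower (hK : ∀ (k : ℤ) (u : ℝ × K), k ≠ 0 → k * u = 0 → u = 0) {Q P : ℕ}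
    (hdiv : ∀ (k j : ℤ) (v : K), k ≠ 0 → |k| < P → k * v = j * a → k ∣ j * Q)
    (hQ : 0 < Q) (hP : ρ ^ 88 ≤ P) : c * (ρ ^ 44 : ℕ) ≤ Q * covolume Γ (G K a) μ := by
  have triv : ∀ t : ℤ, |t| < ((1 : ℕ) : ℤ) → t = 0 := fun t h => Int.abs_lt_one_iff.mp (by simpa using h)
  have zero : ∀ {t : ℤ} {n : ℕ}, t = 0 → |t| < n → t = 0 := fun h _ => h
  have base : ∀ g ∈ Γ, LA g → |g.d.A| < ((1 : ℕ) : ℤ) → |g.u.1| < 1 → g.d.A = 0 ∧ |g.u.1| ≤ 1 :=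
    fun g _ _ h1 h2 => ⟨triv _ h1, h2.le⟩
  have big : ∀ T : ℕ, ρ ^ 44 ≤ T → (c : ℝ≥0∞) * T ≤ covolume Γ (G K a) μ →
      c * (ρ ^ 44 : ℕ) ≤ Q * covolume Γ (G K a) μ := by
    intro T h1 h2
    calc (c : ℝ≥0∞) * (ρ ^ 44 : ℕ) ≤ c * T := by gcongr
      _ ≤ _ := h2
      _ ≤ _ := le_mul_of_one_le_left' (by exact_mod_cast hQ)
  rcases exists_min (fun g => g ∈ Γ) (fun g => g.d.e) (fun g h => ⟨inv_mem h, rfl⟩) with
    he | ⟨n, hn, ⟨gE, hgE, hgE'⟩, he⟩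
  · refine big _ le_rfl ?_
    simpa only [mul_one, one_mul, ENNReal.ofReal_one] using pack1 hc hρ hNS 1 1 1 1 (ρ ^ 44) 1 (fun g h => zero (he g h))
      (fun _ _ => triv _) (fun _ _ => triv _) (fun _ _ => triv _) base
  rcases exists_min (fun g => g ∈ Γ ∧ g.d.e = 0) (fun g => g.d.C)
    (fun g h => ⟨⟨inv_mem h.1, by simp [h.2]⟩, rfl⟩) with hC | ⟨γ, hγ, ⟨gC, hgC, hgC'⟩, hC⟩
  · refine big _ le_rfl ?_
    simpa only [mul_one, one_mul, ENNReal.ofReal_one] using pack1 hc hρ hNS 1 1 1 (ρ ^ 44) 1 1 (fun _ _ => triv _) (fun g h => zero (hC g h))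
      (fun _ _ => triv _) (fun _ _ => triv _) base
  rcases exists_min (fun g => g ∈ Γ ∧ g.d.e = 0 ∧ g.d.C = 0) (fun g => g.d.B)
    (fun g h => ⟨⟨inv_mem h.1, by simp [h.2]⟩, rfl⟩) with hB | ⟨β, hβ, ⟨gB, hgB, hgB'⟩, hB⟩
  · refine big _ le_rfl ?_
    simpa only [mul_one, one_mul, ENNReal.ofReal_one] using pack1 hc hρ hNS 1 (ρ ^ 44) 1 1 1 1 (fun _ _ => triv _) (fun _ _ => triv _)
      (fun g h => zero (hB g h)) (fun _ _ => triv _) base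
  rcases exists_min (fun g => g ∈ Γ ∧ g.d.e = 0 ∧ g.d.C = 0 ∧ g.d.B = 0) (fun g => g.d.D)
    (fun g h => ⟨⟨inv_mem h.1, by simp [h.2]⟩, rfl⟩) with hD | ⟨δ, hδ, ⟨gD, hgD, hgD'⟩, hD⟩
  · refine big _ le_rfl ?_
    simpa only [mul_one, one_mul, ENNReal.ofReal_one] using pack1 hc hρ hNS 1 1 (ρ ^ 44) 1 1 1 (fun _ _ => triv _) (fun _ _ => triv _)
      (fun _ _ => triv _) (fun g h => zero (hD g h)) base
  have hDu : ∀ g ∈ Γ, LA g → ((0 : ℤ), ((δ : ℤ) : ℝ × K) * g.u) ∈ cenSub Γ := fun g hg hL =>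
    hgD' ▸ comm_Du hgD.1 hg hL hgD.2.1 hgD.2.2.1 hgD.2.2.2
  have hδ' : (0 : ℝ) < δ := by exact_mod_cast hδ
  have P2 : ∀ nA : ℕ, (∀ g, g ∈ Γ ∧ LA g ∧ g.u = 0 → |g.d.A| < nA → g.d.A = 0) →
      (c : ℝ≥0∞) * (nA * β : ℕ) ≤ covolume Γ (G K a) μ := by
    intro nA hA
    have := pack1 hc hρ hNS nA β δ 1 1 (1 / δ) (fun _ _ => triv _) (fun _ _ => triv _) hB hD (by
      intro g hg hL h1 h2
      have h3 := (cen_short hNS (hDu g hg hL) (by simp) (by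
        have h4 : (1 : ℝ) ≤ ρ ^ 4 := one_le_pow₀ (by exact_mod_cast hρ)
        have h5 := (lt_div_iff₀ hδ').mp h2
        simp only [Prod.fst_mul, Prod.fst_natCast, Int.cast_natCast, abs_mul, abs_of_pos hδ']
        linarith)).2
      have h6 := hK _ _ (by exact_mod_cast hδ.ne') h3
      exact ⟨hA g ⟨hg, hL, h6⟩ h1, by simp [h6]⟩)
    refine le_trans (le_of_eq ?_) this
    rw [one_div, ENNReal.ofReal_inv_of_pos hδ', ENNReal.ofReal_natCast]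
    push_cast
    rw [mul_one, mul_one, mul_assoc _ (δ : ℝ≥0∞), ENNReal.mul_inv_cancel (by exact_mod_cast hδ.ne')
      (by simp), mul_one]
  rcases exists_min (fun g => g ∈ Γ ∧ LA g ∧ g.u = 0) (fun g => g.d.A)
    (fun g h => ⟨⟨inv_mem h.1, by simpa [LA] using h.2⟩, rfl⟩) with
    hA | ⟨α, hα, ⟨gA, hgA, hgA'⟩, hA⟩
  · exact big _ (Nat.le_mul_of_pos_right _ hβ) (P2 (ρ ^ 44) fun g h => zero (hA g h))
  rcases le_or_gt (ρ ^ 44) (α * β) with h1 | h1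
  · exact big _ h1 (P2 α hA)
  rcases le_or_gt (ρ ^ 44) δ with h2 | h2
  · refine big _ h2 ?_
    simpa only [mul_one, one_mul, ENNReal.ofReal_one] using pack1 hc hρ hNS 1 1 δ 1 1 1 (fun _ _ => triv _) (fun _ _ => triv _)
      (fun _ _ => triv _) hD base
  have hAB : ((0 : ℤ), (((α * β : ℕ) : ℤ) : ℝ × K) * io a) ∈ cenSub Γ := by
    have := comm_AB hgA.1 hgB.1 hgA.2.1 hgA.2.2 hgB.2.1 hgB.2.2
    rw [hgA', hgB'] at this
    simpa using this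
  obtain ⟨z1, hz1⟩ := comm_DC hgD.1 hgC.1 hgC.2 hgD.2.1 hgD.2.2.1 hgD.2.2.2
  rw [hgD', hgC', ← Nat.cast_mul] at hz1
  have h10 := prod_ten hNS (by positivity) (by positivity) hAB hz1
  have hP' : α * β * δ < P := by
    calc α * β * δ < ρ ^ 44 * ρ ^ 44 := Nat.mul_lt_mul'' h1 h2
      _ = ρ ^ 88 := by ring
      _ ≤ P := hP
  obtain ⟨M, hM1, hM2⟩ : ∃ M : ℕ, ρ ^ 2 ≤ n * M ∧ ∀ f : ℤ, |f| < M →
      |f| ≤ ρ ∨ ((n : ℤ) ≤ ρ ∧ |n * f| ≤ (ρ : ℤ) ^ 2) := by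
    rcases le_or_gt ρ n with h | h
    · exact ⟨ρ, by nlinarith, fun f hf => Or.inl hf.le⟩
    · refine ⟨ρ ^ 2 / n + 1, ?_, fun f hf => Or.inr ⟨by exact_mod_cast h.le, ?_⟩⟩
      · have := Nat.div_add_mod (ρ ^ 2) n
        have := Nat.mod_lt (ρ ^ 2) hn
        nlinarith
      · have h3 : ((n * (ρ ^ 2 / n) : ℕ) : ℤ) ≤ (ρ ^ 2 : ℕ) := by
          exact_mod_cast Nat.mul_div_le _ _
        have h4 : |f| ≤ (ρ ^ 2 / n : ℕ) := by push_cast at hf ⊢; omega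
        rw [abs_mul, Nat.abs_cast]
        rw [Nat.cast_mul, Nat.cast_pow] at h3
        exact le_trans (by gcongr) h3
  have hQ' : (0 : ℝ) < Q := by exact_mod_cast hQ
  have main := pack hc ![α, β, δ, γ, n, ρ ^ 2, M, ρ ^ 2, ρ ^ 3, ρ, ρ ^ 2, ρ ^ 3, ρ ^ 4, ρ ^ 5, ρ ^ 6]
    (1 / Q) (ρ ^ 4) he hC hB hD (by
    intro g hg hL hv hu hz
    have hu0 := u_zero hρ hNS hK hdiv (by positivity) hδ hP' hQ hAB (hDu g hg hL) hu
    have hA0 := hA g ⟨hg, hL, hu0⟩ (hv 0)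
    have hp : ∀ w, (0 : ℤ) ≤ ρ ^ w := fun w => by positivity
    have hb : ∀ f : ℤ, |f| ≤ ρ → (set3 g f).Box ρ := by
      intro f hf
      obtain ⟨h3, h4, h5, h6⟩ := hL
      have v5 : |g.d.x| < (ρ ^ 2 : ℕ) := hv 5
      have v7 : |g.d.f2| < (ρ ^ 2 : ℕ) := hv 7
      have v8 : |g.d.f1| < (ρ ^ 3 : ℕ) := hv 8
      have v9 : |g.d.g5| < ρ := hv 9
      have v10 : |g.d.g4| < (ρ ^ 2 : ℕ) := hv 10
      have v11 : |g.d.g3| < (ρ ^ 3 : ℕ) := hv 11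
      have v12 : |g.d.g2| < (ρ ^ 4 : ℕ) := hv 12
      have v13 : |g.d.g1| < (ρ ^ 5 : ℕ) := hv 13
      have v14 : |g.d.y| < (ρ ^ 6 : ℕ) := hv 14
      push_cast at v5 v7 v8 v10 v11 v12 v13 v14
      have h7 : (0 : ℤ) ≤ ρ := by positivity
      refine ⟨?_, by simp [set3], hz.le.trans (le_add_of_nonneg_right (by positivity))⟩
      constructor <;> simp only [set3, mk_d, hA0, h3, h4, h5, h6, abs_zero] <;>
        linarith [hp 2, hp 3, hp 4, hp 5, hp 6]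
    have hf : |g.d.f3| ≤ ρ := by
      rcases hM2 g.d.f3 (hv 6) with h | h
      · exact h
      · rw [f3_zero hNS hgE hg ⟨⟨hL, hA0⟩, hu0⟩ (by rw [hgE']; exact_mod_cast hn.ne')
          (by rw [hgE', Nat.abs_cast]; exact h.1) (by rw [hgE']; exact h.2) (hb 0 (by simp))]
        simp
    have hg' : g = set3 g g.d.f3 := ext rfl hu0 rfl
    exact hNS g hg hL (hg' ▸ (hb _ hf).mono (by omega)))
  refine le_trans ?_ (mul_le_mul_right main (Q : ℝ≥0∞))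
  rw [one_div, ENNReal.ofReal_inv_of_pos hQ', ENNReal.ofReal_natCast,
    ENNReal.ofReal_pow (by positivity), ENNReal.ofReal_natCast, mul_left_comm, mul_left_comm (Q : ℝ≥0∞),
    ← mul_assoc (Q : ℝ≥0∞), ENNReal.mul_inv_cancel (by exact_mod_cast hQ.ne') (by simp), one_mul,
    ← Nat.cast_pow, ← Nat.cast_mul]
  gcongr
  simp only [Fin.prod_univ_succ, Matrix.cons_val_zero, Matrix.cons_val_succ, Fin.prod_univ_zero]
  calc ρ ^ 44 = ρ ^ 10 * ρ ^ 2 * ρ ^ 32 := by ring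
    _ ≤ (α * β * (δ * γ)) * (n * M) * ρ ^ 32 := by gcongr
    _ = _ := by ring

end G

end Pool.Agent.MP_c06449_al.H73
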