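import Pool.Agent.MP_c06449_al.H73.Box

/-! Elements of the abelian subgroup `B = D = C = e = 0` in the box of size `ρ` have word length
at most a constant times `ρ`. -/

namespace Pool.Agent.MP_c06449_al.H73

open Set

section Abstract

variable {H : Type} [Group H] {S : Set H}

theorem inBall_hom (P : ℤ → H) (hP : ∀ k l, P (k + l) = P k * P l) (h1 : P 1 ∈ S) (k : ℤ)
    (n : ℕ) (h : |k| ≤ n) : InBall S n (P k) := by
  let f : Multiplicative ℤ →* H := MonoidHom.mk' (fun t => P t.toAdd) fun s t => hP _ _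
  have : P k = P 1 ^ k := by
    have := f.map_zpow (Multiplicative.ofAdd 1) k
    simpa [f] using this
  rw [this]
  exact (InBall.of_mem h1).zpow k n h

/-- Every coefficient of size `20 ρ ^ w` is realised by a short element of the level `L`. -/
def Qs (S : Set H) (L : H → ℤ → Prop) (w : ℕ) : Prop :=
  ∃ c : ℕ, ∀ ρ : ℕ, 1 ≤ ρ → ∀ k : ℤ, |k| ≤ 20 * ρ ^ w → ∃ g, L g k ∧ InBall S (c * ρ) g

theorem Qs.base {L : H → ℤ → Prop} (P : ℤ → H) (hP : ∀ (k : ℤ) (n : ℕ), |k| ≤ n → InBall S n (P k))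
    (hL : ∀ k, L (P k) k) : Qs S L 1 :=
  ⟨20, fun ρ _ k hk => ⟨P k, hL k, hP k _ (by simpa using hk)⟩⟩

theorem Qs.step {L L' : H → ℤ → Prop} {w : ℕ} (hQ : Qs S L w) (j : ℕ) (hj : 1 ≤ j)
    (E P : ℤ → H) (hE : ∀ (k : ℤ) (n : ℕ), |k| ≤ n → InBall S n (E k))
    (hP : ∀ (k : ℤ) (n : ℕ), |k| ≤ n → InBall S n (P k))
    (hT : ∀ g k (r b : ℤ), L g k → L' (E r * g * (E r)⁻¹ * g⁻¹ * P b) (j * r * k + b)) :
    Qs S L' (w + 1) := by
  obtain ⟨c, hc⟩ := hQ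
  refine ⟨2 * c + 2 + j, fun ρ hρ k hk => ?_⟩
  have hpos : (0 : ℤ) < j * ρ := by positivity
  have hj' : (1 : ℤ) ≤ j := by exact_mod_cast hj
  have h0 : (0 : ℤ) ≤ 20 * ρ ^ w * ρ := by positivity
  have hk' := abs_le.mp hk
  have h1 : (20 : ℤ) * ρ ^ (w + 1) ≤ 20 * ρ ^ w * (j * ρ) := by rw [pow_succ]; nlinarith
  obtain ⟨g, hg, hb⟩ := hc ρ hρ (k / (j * ρ)) (abs_le.mpr ⟨Int.le_ediv_of_mul_le hpos (by linarith),
    Int.ediv_le_of_le_mul hpos (by linarith)⟩)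
  refine ⟨E ρ * g * (E ρ)⁻¹ * g⁻¹ * P (k % (j * ρ)), ?_, ?_⟩
  · have := hT g _ ρ (k % (j * ρ)) hg
    rwa [Int.mul_ediv_add_emod] at this
  · have h2 := hE ρ ρ (by simp)
    have h3 := hP (k % (j * ρ)) (j * ρ) (by
      rw [abs_of_nonneg (Int.emod_nonneg _ hpos.ne')]
      exact_mod_cast (Int.emod_lt_of_pos _ hpos).le)
    exact ((((h2.mul hb).mul h2.inv).mul hb.inv).mul h3).mono (le_of_eq (by ring))

end Abstract

namespace G

variable {K : Type} [CommRing K] {a : K}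

/-- All elements of the level `L` in the box of size `ρ` are short. -/
def Rs (a : K) (L : G K a → Prop) : Prop :=
  ∃ c : ℕ, ∀ ρ : ℕ, 1 ≤ ρ → ∀ g, L g → g.Box ρ → InBall (gen a) (c * ρ) g

theorem Rs.step {L L' : G K a → Prop} {w : ℕ} (κ : G K a → ℤ) (hR : Rs a L')
    {M : G K a → ℤ → Prop} (hQ : Qs (gen a) M w)
    (hκ : ∀ ρ g, Box ρ g → |κ g| ≤ 20 * (ρ : ℤ) ^ w)
    (hL : ∀ g h, L g → M h (κ g) → L' (g * h⁻¹)) : Rs a L := by
  obtain ⟨c, hc⟩ := hR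
  obtain ⟨c', hc'⟩ := hQ
  refine ⟨c * (1 + c') + c', fun ρ hρ g hg hb => ?_⟩
  obtain ⟨h, hh, hh'⟩ := hc' ρ hρ (κ g) (hκ ρ g hb)
  have h1 := hc (ρ + c' * ρ) (by omega) _ (hL g h hg hh) (hb.mul (box_of_inBall hh'.inv))
  have h2 := h1.mul hh'
  rw [inv_mul_cancel_right] at h2
  exact h2.mono (le_of_eq (by ring))

/-- Levels. -/
def LA (g : G K a) : Prop := g.d.B = 0 ∧ g.d.D = 0 ∧ g.d.C = 0 ∧ g.d.e = 0
/-- Levels. -/
def Lu (g : G K a) : Prop := LA g ∧ g.d.A = 0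
/-- Levels. -/
def L0 (g : G K a) : Prop := Lu g ∧ g.u = 0
/-- Levels. -/
def L1 (g : G K a) : Prop := L0 g ∧ g.d.x = 0
/-- Levels. -/
def L2 (g : G K a) : Prop := L1 g ∧ g.d.g5 = 0
/-- Levels. -/
def L3 (g : G K a) : Prop := L2 g ∧ g.d.g4 = 0
/-- Levels. -/
def L4 (g : G K a) : Prop := L3 g ∧ g.d.g3 = 0
/-- Levels. -/
def L5 (g : G K a) : Prop := L4 g ∧ g.d.g2 = 0
/-- Levels. -/
def L6 (g : G K a) : Prop := L5 g ∧ g.d.g1 = 0
/-- Levels. -/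
def L7 (g : G K a) : Prop := L6 g ∧ g.d.y = 0
/-- Levels. -/
def L8 (g : G K a) : Prop := L7 g ∧ g.d.f3 = 0
/-- Levels. -/
def L9 (g : G K a) : Prop := L8 g ∧ g.d.f2 = 0
/-- Levels. -/
def L10 (g : G K a) : Prop := L9 g ∧ g.d.f1 = 0

/-- The element with the single integer coordinate `i` equal to `k`. -/
def pure (a : K) (i : ℕ) (k : ℤ) : G K a :=
  mk a ⟨if i = 0 then k else 0, if i = 1 then k else 0, if i = 2 then k else 0,
    if i = 3 then k else 0, if i = 4 then k else 0, if i = 5 then k else 0, if i = 6 then k else 0,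
    if i = 7 then k else 0, if i = 8 then k else 0, if i = 9 then k else 0,
    if i = 10 then k else 0, if i = 11 then k else 0, if i = 12 then k else 0,
    if i = 13 then k else 0, if i = 14 then k else 0⟩ 0 0

/-- The element with `u = k ι`. -/
def pu (a : K) (k : ℤ) : G K a := mk a 1 (k * io a) 0
/-- The element with `z = k ι`. -/
def pz (a : K) (k : ℤ) : G K a := mk a 1 0 (k * io a)

theorem pure_add (i : ℕ) (k l : ℤ) : pure a i (k + l) = pure a i k * pure a i l := by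
  refine ext ?_ (by simp [pure]) ?_
  · ext <;> simp [pure] <;> split_ifs <;> omega
  · simp [pure, Dz.cz]
    split_ifs <;> first | omega | simp

theorem pure_box (i : ℕ) (k : ℤ) (hk : |k| ≤ 1) : (pure a i k).Box 1 := by
  refine ⟨?_, by simp [pure], by simp [pure]⟩
  constructor <;> simp only [pure, mk_d] <;> split_ifs <;> simp <;> omega

theorem inBall_pure (i : ℕ) (k : ℤ) (n : ℕ) (h : |k| ≤ n) :
    InBall (gen a) n (pure a i k) := by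
  refine inBall_hom _ (pure_add i) (And.intro (pure_box i 1 (by simp)) ?_) k n h
  have h0 : pure a i 0 = 1 := ext (by ext <;> simp [pure]) rfl rfl
  have : (pure a i 1)⁻¹ = pure a i (-1) := by
    rw [inv_eq_iff_mul_eq_one, ← pure_add, add_neg_cancel, h0]
  rw [this]
  exact pure_box i _ (by simp)

theorem small_mem {u z : ℝ × K} (hu : |u.1| ≤ 1) (hz : |z.1| ≤ 1) : mk a 1 u z ∈ gen a := by
  refine ⟨⟨?_, ?_, ?_⟩, ⟨?_, ?_, ?_⟩⟩
  · constructor <;> simp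
  · simpa using hu
  · simp; linarith
  · constructor <;> simp
  · simpa using hu
  · simp [Dz.iz]; linarith

theorem inBall_pu (k : ℤ) (n : ℕ) (h : |k| ≤ n) : InBall (gen a) n (pu a k) :=
  inBall_hom _ (fun k l => ext (by simp [pu]) (by simp [pu]; ring) (by simp [pu, Dz.cz]))
    (small_mem (by simp) (by simp)) k n h

theorem inBall_pz (k : ℤ) (n : ℕ) (h : |k| ≤ n) : InBall (gen a) n (pz a k) :=
  inBall_hom _ (fun k l => ext (by simp [pz]) (by simp [pz]) (by simp [pz, Dz.cz]; ring))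
    (small_mem (by simp) (by simp)) k n h

theorem abs_round_le {t : ℝ} {M : ℤ} (h : |t| ≤ M) : |⌊t⌋| ≤ M := by
  have h1 := abs_le.mp h
  rw [abs_le]
  exact ⟨Int.le_floor.mpr (by push_cast; linarith), by
    have := Int.floor_le t
    exact_mod_cast (this.trans h1.2)⟩

theorem abs_sub_floor_le (t : ℝ) : |t - ⌊t⌋| ≤ 1 := by
  have := Int.floor_le t
  have := Int.lt_floor_add_one t
  rw [abs_le]; constructor <;> linarith

theorem qs_x : Qs (gen a) (fun g k => L0 g ∧ g.d.x = k) 2 := by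
  refine (Qs.base (L := fun g k => g = pure a 1 k) _ (inBall_pure 1) fun _ => rfl).step 1 le_rfl
    (fun r => pure a 3 (-r)) (pure a 5) (fun k n h => inBall_pure 3 _ n (by simpa using h))
    (inBall_pure 5) ?_
  rintro g k r b rfl
  simp [L0, Lu, LA, pure]
  ring

theorem qs_g5 : Qs (gen a) (fun g k => L1 g ∧ g.d.g5 = k) 1 :=
  Qs.base _ (inBall_pure 9) fun k => by simp [L1, L0, Lu, LA, pure]

theorem qs_g4 : Qs (gen a) (fun g k => L2 g ∧ g.d.g4 = k) 2 := by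
  refine qs_g5.step 5 (by norm_num) _ _ (inBall_pure 4) (inBall_pure 10) ?_
  rintro g k r b ⟨⟨⟨⟨⟨h1, h2, h3, h4⟩, h5⟩, h6⟩, h7⟩, rfl⟩
  simp [L2, L1, L0, Lu, LA, pure, *]
  ring

theorem qs_g3 : Qs (gen a) (fun g k => L3 g ∧ g.d.g3 = k) 3 := by
  refine qs_g4.step 4 (by norm_num) _ _ (inBall_pure 4) (inBall_pure 11) ?_
  rintro g k r b ⟨⟨⟨⟨⟨⟨h1, h2, h3, h4⟩, h5⟩, h6⟩, h7⟩, h8⟩, rfl⟩
  simp [L3, L2, L1, L0, Lu, LA, pure, *]
  ring

theorem qs_g2 : Qs (gen a) (fun g k => L4 g ∧ g.d.g2 = k) 4 := by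
  refine qs_g3.step 3 (by norm_num) _ _ (inBall_pure 4) (inBall_pure 12) ?_
  rintro g k r b ⟨⟨⟨⟨⟨⟨⟨h1, h2, h3, h4⟩, h5⟩, h6⟩, h7⟩, h8⟩, h9⟩, rfl⟩
  simp [L4, L3, L2, L1, L0, Lu, LA, pure, *]
  ring

theorem qs_g1 : Qs (gen a) (fun g k => L5 g ∧ g.d.g1 = k) 5 := by
  refine qs_g2.step 2 (by norm_num) _ _ (inBall_pure 4) (inBall_pure 13) ?_
  rintro g k r b ⟨⟨⟨⟨⟨⟨⟨⟨h1, h2, h3, h4⟩, h5⟩, h6⟩, h7⟩, h8⟩, h9⟩, h10⟩, rfl⟩
  simp [L5, L4, L3, L2, L1, L0, Lu, LA, pure, *]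
  ring

theorem qs_y : Qs (gen a) (fun g k => L6 g ∧ g.d.y = k) 6 := by
  refine qs_g1.step 1 (by norm_num) _ _ (inBall_pure 4) (inBall_pure 14) ?_
  rintro g k r b ⟨⟨⟨⟨⟨⟨⟨⟨⟨h1, h2, h3, h4⟩, h5⟩, h6⟩, h7⟩, h8⟩, h9⟩, h10⟩, h11⟩, rfl⟩
  simp [L6, L5, L4, L3, L2, L1, L0, Lu, LA, pure, *]

theorem qs_f3 : Qs (gen a) (fun g k => L7 g ∧ g.d.f3 = k) 1 :=
  Qs.base _ (inBall_pure 6) fun k => by simp [L7, L6, L5, L4, L3, L2, L1, L0, Lu, LA, pure]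

theorem qs_f2 : Qs (gen a) (fun g k => L8 g ∧ g.d.f2 = k) 2 := by
  refine qs_f3.step 3 (by norm_num) _ _ (inBall_pure 4) (inBall_pure 7) ?_
  rintro g k r b ⟨⟨⟨⟨⟨⟨⟨⟨⟨⟨⟨h1, h2, h3, h4⟩, h5⟩, h6⟩, h7⟩, h8⟩, h9⟩, h10⟩, h11⟩, h12⟩, h13⟩, rfl⟩
  simp [L8, L7, L6, L5, L4, L3, L2, L1, L0, Lu, LA, pure, *]
  ring

theorem qs_f1 : Qs (gen a) (fun g k => L9 g ∧ g.d.f1 = k) 3 := by
  refine qs_f2.step 2 (by norm_num) _ _ (inBall_pure 4) (inBall_pure 8) ?_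
  rintro g k r b
    ⟨⟨⟨⟨⟨⟨⟨⟨⟨⟨⟨⟨h1, h2, h3, h4⟩, h5⟩, h6⟩, h7⟩, h8⟩, h9⟩, h10⟩, h11⟩, h12⟩, h13⟩, h14⟩, rfl⟩
  simp [L9, L8, L7, L6, L5, L4, L3, L2, L1, L0, Lu, LA, pure, *]
  ring

theorem qs_z : Qs (gen a) (fun g k => L10 g ∧ g.z = k * io a) 4 := by
  refine qs_f1.step 1 (by norm_num) _ _ (inBall_pure 4) inBall_pz ?_
  rintro g k r b
    ⟨⟨⟨⟨⟨⟨⟨⟨⟨⟨⟨⟨⟨h1, h2, h3, h4⟩, h5⟩, h6⟩, h7⟩, h8⟩, h9⟩, h10⟩, h11⟩, h12⟩, h13⟩, h14⟩, h15⟩,
      rfl⟩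
  simp [L10, L9, L8, L7, L6, L5, L4, L3, L2, L1, L0, Lu, LA, pure, pz, Dz.cz, Dz.iz, *]
  ring

theorem rs10 : Rs a L10 := by
  obtain ⟨c, hc⟩ := qs_z (a := a)
  refine ⟨c + 1, fun ρ hρ g hg hb => ?_⟩
  have h1 : (1 : ℝ) ≤ ρ := by exact_mod_cast hρ
  have h2 : (ρ : ℝ) ^ 2 ≤ ρ ^ 4 := pow_le_pow_right₀ h1 (by norm_num)
  have h3 : (0 : ℝ) ≤ ρ ^ 4 := by positivity
  obtain ⟨h, ⟨hh, hz⟩, hh'⟩ := hc ρ hρ ⌊g.z.1⌋ (abs_round_le (by push_cast; linarith [hb.2.2]))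
  have h4 : g = mk a 1 0 (g.z - ⌊g.z.1⌋ * io a) * h := by
    obtain ⟨⟨⟨⟨⟨⟨⟨⟨⟨⟨⟨⟨⟨h1, h2, h3, h4⟩, h5⟩, h6⟩, h7⟩, h8⟩, h9⟩, h10⟩, h11⟩, h12⟩, h13⟩, h14⟩,
      h15⟩, h16⟩ := hg
    obtain ⟨⟨⟨⟨⟨⟨⟨⟨⟨⟨⟨⟨⟨h1, h2, h3, h4⟩, h5⟩, h6⟩, h7⟩, h8⟩, h9⟩, h10⟩, h11⟩, h12⟩, h13⟩, h14⟩,
      h15⟩, h16⟩ := hh
    refine ext (by ext <;> simp [*]) (by simp [*]) (by simp [Dz.cz, *])
  rw [h4]
  refine ((InBall.of_mem (small_mem (by simp) ?_)).mul hh').mono (by nlinarith)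
  simpa using abs_sub_floor_le g.z.1

theorem bd {t : ℤ} {ρ c w : ℕ} (h : t ≤ c * (ρ : ℤ) ^ w) (hc : c ≤ 20) :
    t ≤ 20 * (ρ : ℤ) ^ w := h.trans (by gcongr; exact_mod_cast hc)

theorem rs0 : Rs a L0 := by
  have r9 : Rs a L9 := rs10.step (fun g => g.d.f1) qs_f1 (fun ρ g h => bd (c := 4) h.1.f1 (by norm_num))
    (by simp +contextual [L10, L9, L8, L7, L6, L5, L4, L3, L2, L1, L0, Lu, LA])
  have r8 : Rs a L8 := r9.step (fun g => g.d.f2) qs_f2 (fun ρ g h => bd (c := 6) h.1.f2 (by norm_num))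
    (by simp +contextual [L9, L8, L7, L6, L5, L4, L3, L2, L1, L0, Lu, LA])
  have r7 : Rs a L7 := r8.step (fun g => g.d.f3) qs_f3
    (fun ρ g h => bd (c := 4) (by simpa using h.1.f3) (by norm_num))
    (by simp +contextual [L8, L7, L6, L5, L4, L3, L2, L1, L0, Lu, LA])
  have r6 : Rs a L6 := r7.step (fun g => g.d.y) qs_y
    (fun ρ g h => by
      have h1 := h.1.y
      rcases Nat.eq_zero_or_pos ρ with rfl | hρ
      · simpa using h1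
      · have h2 : (1 : ℤ) ≤ ρ := by exact_mod_cast hρ
        have h3 : (ρ : ℤ) ^ 2 ≤ ρ ^ 6 := pow_le_pow_right₀ h2 (by norm_num)
        have h4 : (0 : ℤ) ≤ ρ ^ 6 := by positivity
        linarith)
    (by simp +contextual [L7, L6, L5, L4, L3, L2, L1, L0, Lu, LA])
  have r5 : Rs a L5 := r6.step (fun g => g.d.g1) qs_g1 (fun ρ g h => bd (c := 6) h.1.g1 (by norm_num))
    (by simp +contextual [L6, L5, L4, L3, L2, L1, L0, Lu, LA])
  have r4 : Rs a L4 := r5.step (fun g => g.d.g2) qs_g2 (fun ρ g h => bd (c := 15) h.1.g2 (by norm_num))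
    (by simp +contextual [L5, L4, L3, L2, L1, L0, Lu, LA])
  have r3 : Rs a L3 := r4.step (fun g => g.d.g3) qs_g3 (fun ρ g h => h.1.g3)
    (by simp +contextual [L4, L3, L2, L1, L0, Lu, LA])
  have r2 : Rs a L2 := r3.step (fun g => g.d.g4) qs_g4 (fun ρ g h => bd (c := 15) h.1.g4 (by norm_num))
    (by simp +contextual [L3, L2, L1, L0, Lu, LA])
  have r1 : Rs a L1 := r2.step (fun g => g.d.g5) qs_g5
    (fun ρ g h => bd (c := 6) (by simpa using h.1.g5) (by norm_num))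
    (by simp +contextual [L2, L1, L0, Lu, LA])
  exact r1.step (fun g => g.d.x) qs_x
    (fun ρ g h => bd (c := 1) (by simpa using h.1.x) (by norm_num))
    (by simp +contextual [L1, L0, Lu, LA])

theorem rsu : Rs a Lu := by
  obtain ⟨c, hc⟩ := rs0 (a := a)
  refine ⟨c + 2, fun ρ hρ g hg hb => ?_⟩
  have h4 : g = mk a g.d 0 g.z * (pu a ⌊g.u.1⌋ * mk a 1 (g.u - ⌊g.u.1⌋ * io a) 0) := by
    obtain ⟨⟨h1, h2, h3, h4⟩, h5⟩ := hg
    refine ext (by simp [pu]) (by simp [pu]) (by simp [pu, Dz.cz, *])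
  have h5 := hc ρ hρ (mk a g.d 0 g.z) ⟨hg, rfl⟩ ⟨hb.1, by simp, hb.2.2⟩
  have h6 : InBall (gen a) 1 (mk a 1 (g.u - ⌊g.u.1⌋ * io a) 0) :=
    InBall.of_mem (small_mem (by simpa using abs_sub_floor_le g.u.1) (by simp))
  have h7 := h5.mul ((inBall_pu (a := a) ⌊g.u.1⌋ ρ (abs_round_le (by simpa using hb.2.1))).mul h6)
  rw [← h4] at h7
  exact h7.mono (by nlinarith)

theorem rsA : Rs a LA :=
  rsu.step (fun g => g.d.A)
    (Qs.base (L := fun g k => LA g ∧ g.d.A = k) _ (inBall_pure 0) fun k => by simp [LA, pure])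
    (fun ρ g h => bd (c := 1) (by simpa using h.1.A) (by norm_num))
    (by simp +contextual [Lu, LA])

theorem exists_inBall (g : G K a) : ∃ n, InBall (gen a) n g := by
  obtain ⟨c, hc⟩ := rsA (a := a)
  let s := pure a 1 g.d.B * pure a 2 g.d.D * pure a 3 g.d.C * pure a 4 g.d.e
  obtain ⟨n, hn, hb⟩ := exists_box (g * s⁻¹)
  have h1 := hc n hn _ (by simp [LA, s, pure]) hb
  have hp : ∀ i k, InBall (gen a) k.natAbs (pure a i k) := fun i k =>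
    inBall_pure i k _ (by simp)
  have h2 := h1.mul ((((hp 1 g.d.B).mul (hp 2 g.d.D)).mul (hp 3 g.d.C)).mul (hp 4 g.d.e))
  rw [inv_mul_cancel_right] at h2
  exact ⟨_, h2⟩

theorem closure_gen : Subgroup.closure (gen a) = ⊤ :=
  eq_top_iff.mpr fun g _ => (exists_inBall g).choose_spec.mem_closure

theorem box_wordLength (g : G K a) : g.Box (wordLength (gen a) g) :=
  box_of_inBall (exists_inBall g).choose_spec.of_wordLength

end G

end Pool.Agent.MP_c06449_al.H73
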