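import Pool.Agent.MP_c06449_al.H73.Short

/-! Explicit lattices with large systole. -/

namespace Pool.Agent.MP_c06449_al.H73

open MeasureTheory Set
open scoped ENNReal NNReal

theorem exists_red (s M : ℤ) (hM : 0 < M) : ∃ q : ℤ, 0 ≤ M * q + s ∧ M * q + s < M := by
  refine ⟨-(s / M), ?_, ?_⟩
  · have := Int.emod_nonneg s hM.ne'
    have := Int.mul_ediv_add_emod s M
    linarith
  · have := Int.emod_lt_of_pos s hM
    have := Int.mul_ediv_add_emod s M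
    linarith

theorem exists_red_real (s M : ℝ) (hM : 0 < M) : ∃ q : ℤ, 0 ≤ M * q + s ∧ M * q + s < M := by
  refine ⟨-⌊s / M⌋, ?_, ?_⟩
  · have := (le_div_iff₀ hM).mp (Int.floor_le (s / M))
    push_cast; linarith
  · have := (div_lt_iff₀ hM).mp (Int.lt_floor_add_one (s / M))
    push_cast; linarith

theorem kill {M q N : ℤ} (h : |M * q| ≤ N) (hN : N < M) : q = 0 := by
  by_contra hq
  have h0 : 0 < M := (abs_nonneg _).trans_lt (h.trans_lt hN)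
  have h1 : 1 ≤ |q| := Int.one_le_abs hq
  rw [abs_mul, abs_of_pos h0] at h
  nlinarith

namespace G

variable {K : Type} [CommRing K] {a : K}

/-- Parameters of a lattice. -/
structure Par (a : K) where
  r : ℕ
  α : ℕ
  t : ℝ × K
  θ : ℤ
  τ : ℤ
  κ : ℤ
  hα : r ≤ α
  h1 : (r : ℝ × K) * t = τ * io a
  h2 : r * θ * τ - α = r ^ 3 * κ

/-- The elements of the lattice. -/
def el (p : Par a) (k j b b' c n ξ η φ3 φ2 φ1 ζ γ5 γ4 γ3 γ2 γ1 : ℤ) : G K a :=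
  mk a ⟨p.α * k, p.r * b, p.r ^ 5 * b' + p.r ^ 3 * p.θ * b, p.r * c, p.r * n, p.r ^ 2 * ξ,
    p.r * φ3, p.r ^ 2 * φ2, p.r ^ 3 * φ1, p.r * γ5, p.r ^ 2 * γ4, p.r ^ 3 * γ3, p.r ^ 4 * γ2,
    p.r ^ 5 * γ1, p.r ^ 6 * η + p.r ^ 4 * p.θ * ξ⟩ (p.r * j * io a + k * p.t) (p.r ^ 4 * ζ * io a)

/-- The lattice. -/
def Lat (p : Par a) : Subgroup (G K a) where
  carrier := {g | ∃ k j b b' c n ξ η φ3 φ2 φ1 ζ γ5 γ4 γ3 γ2 γ1 : ℤ,
    g = el p k j b b' c n ξ η φ3 φ2 φ1 ζ γ5 γ4 γ3 γ2 γ1}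
  one_mem' := ⟨0, 0, 0, 0, 0, 0, 0, 0, 0, 0, 0, 0, 0, 0, 0, 0, 0,
    ext (by ext <;> simp [el]) (by simp [el]) (by simp [el])⟩
  mul_mem' := by
    rintro _ _ ⟨k, j, b, b', c, n, ξ, η, φ3, φ2, φ1, ζ, γ5, γ4, γ3, γ2, γ1, rfl⟩
      ⟨k₂, j₂, b₂, b'₂, c₂, n₂, ξ₂, η₂, φ3₂, φ2₂, φ1₂, ζ₂, γ5₂, γ4₂, γ3₂, γ2₂, γ1₂, rfl⟩
    have h2 : (p.r : ℝ × K) * p.θ * p.τ - p.α = p.r ^ 3 * p.κ := by exact_mod_cast congrArg Int.cast p.h2
    refine ⟨k + k₂, j + j₂, b + b₂, b' + b'₂, c + c₂, n + n₂, ξ + ξ₂ + b * c₂,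
      η + η₂ + n * γ1₂ + n ^ 2 * γ2₂ + n ^ 3 * γ3₂ + n ^ 4 * γ4₂ + n ^ 5 * γ5₂ + b' * c₂,
      φ3 + φ3₂, φ2 + φ2₂ + 3 * n * φ3₂, φ1 + φ1₂ + 2 * n * φ2₂ + 3 * n ^ 2 * φ3₂,
      ζ + ζ₂ + p.κ * b * k₂ + p.θ * b * j₂ + p.τ * b' * k₂ + p.r ^ 2 * b' * j₂ + n * φ1₂
        + n ^ 2 * φ2₂ + n ^ 3 * φ3₂,
      γ5 + γ5₂, γ4 + γ4₂ + 5 * n * γ5₂, γ3 + γ3₂ + 4 * n * γ4₂ + 10 * n ^ 2 * γ5₂,
      γ2 + γ2₂ + 3 * n * γ3₂ + 6 * n ^ 2 * γ4₂ + 10 * n ^ 3 * γ5₂,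
      γ1 + γ1₂ + 2 * n * γ2₂ + 3 * n ^ 2 * γ3₂ + 4 * n ^ 3 * γ4₂ + 5 * n ^ 4 * γ5₂,
      ext ?_ ?_ ?_⟩
    · ext <;> simp [el] <;> ring
    · simp [el]; ring
    · simp only [el, Dz.cz, mul_z, mk_d, mk_u, mk_z]
      push_cast
      linear_combination ((p.r : ℝ × K) ^ 2 * p.θ * b * k₂ + p.r ^ 4 * b' * k₂) * p.h1
        + (p.r * b * k₂ * io a) * h2
  inv_mem' := by
    rintro _ ⟨k, j, b, b', c, n, ξ, η, φ3, φ2, φ1, ζ, γ5, γ4, γ3, γ2, γ1, rfl⟩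
    have h2 : (p.r : ℝ × K) * p.θ * p.τ - p.α = p.r ^ 3 * p.κ := by exact_mod_cast congrArg Int.cast p.h2
    refine ⟨-k, -j, -b, -b', -c, -n, -ξ + b * c,
      -η + n * γ1 - n ^ 2 * γ2 + n ^ 3 * γ3 - n ^ 4 * γ4 + n ^ 5 * γ5 + b' * c,
      -φ3, -φ2 + 3 * n * φ3, -φ1 + 2 * n * φ2 - 3 * n ^ 2 * φ3,
      -ζ + p.κ * b * k + p.θ * b * j + p.τ * b' * k + p.r ^ 2 * b' * j + n * φ1
        - n ^ 2 * φ2 + n ^ 3 * φ3,
      -γ5, -γ4 + 5 * n * γ5, -γ3 + 4 * n * γ4 - 10 * n ^ 2 * γ5,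
      -γ2 + 3 * n * γ3 - 6 * n ^ 2 * γ4 + 10 * n ^ 3 * γ5,
      -γ1 + 2 * n * γ2 - 3 * n ^ 2 * γ3 + 4 * n ^ 3 * γ4 - 5 * n ^ 4 * γ5,
      ext ?_ ?_ ?_⟩
    · ext <;> simp [el] <;> ring
    · simp [el]; ring
    · simp only [el, Dz.iz, inv_z, mk_d, mk_u, mk_z]
      push_cast
      linear_combination ((p.r : ℝ × K) ^ 2 * p.θ * b * k + p.r ^ 4 * b' * k) * p.h1
        + (p.r * b * k * io a) * h2

theorem el_mem (p : Par a) (k j b b' c n ξ η φ3 φ2 φ1 ζ γ5 γ4 γ3 γ2 γ1 : ℤ) :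
    el p k j b b' c n ξ η φ3 φ2 φ1 ζ γ5 γ4 γ3 γ2 γ1 ∈ Lat p :=
  ⟨k, j, b, b', c, n, ξ, η, φ3, φ2, φ1, ζ, γ5, γ4, γ3, γ2, γ1, rfl⟩

theorem lat_sys (p : Par a) {m : ℕ} (hm : 20 * m < p.r) {g : G K a} (hg : g ∈ Lat p)
    (hb : g.Box m) : g = 1 := by
  obtain ⟨k, j, b, b', c, n, ξ, η, φ3, φ2, φ1, ζ, γ5, γ4, γ3, γ2, γ1, rfl⟩ := hg
  have hm' : (20 : ℤ) * m < p.r := by exact_mod_cast hm
  have hα : (p.r : ℤ) ≤ p.α := by exact_mod_cast p.hα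
  have h0 : (0 : ℤ) ≤ m := by positivity
  have hw : ∀ w, 1 ≤ w → (20 : ℤ) * m ^ w < p.r ^ w := fun w hw => by
    have h1 : ((20 : ℤ) * m) ^ w < p.r ^ w := pow_lt_pow_left₀ hm' (by positivity) (by omega)
    have h2 : (20 : ℤ) ≤ 20 ^ w := le_self_pow₀ (by norm_num) (by omega)
    have h3 : (0 : ℤ) ≤ m ^ w := by positivity
    rw [mul_pow] at h1
    nlinarith
  have hp : ∀ w, (0 : ℤ) ≤ m ^ w := fun w => by positivity
  have h26 : (m : ℤ) ^ 2 ≤ m ^ 6 ∧ (m : ℤ) ^ 2 ≤ m ^ 4 := by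
    rcases Nat.eq_zero_or_pos m with rfl | hρ
    · simp
    · have h2 : (1 : ℤ) ≤ m := by exact_mod_cast hρ
      exact ⟨pow_le_pow_right₀ h2 (by norm_num), pow_le_pow_right₀ h2 (by norm_num)⟩
  have hr5 : (p.r : ℤ) ≤ p.r ^ 5 := le_self_pow₀ (by linarith) (by norm_num)
  obtain ⟨⟨hA, hB, hD, hC, he, hx, hf3, hf2, hf1, hg5, hg4, hg3, hg2, hg1, hy⟩, hu, hz⟩ := hb
  simp only [el, mk_d, mk_u, mk_z] at hA hB hD hC he hx hf3 hf2 hf1 hg5 hg4 hg3 hg2 hg1 hy hu hz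
  obtain rfl := kill hA (by linarith)
  obtain rfl := kill hB (by linarith)
  obtain rfl := kill hC (by linarith)
  obtain rfl := kill he (by linarith)
  obtain rfl := kill hx (by linarith [hw 2 (by norm_num), hp 2])
  obtain rfl := kill hf3 (by linarith)
  obtain rfl := kill hf2 (by linarith [hw 2 (by norm_num), hp 2])
  obtain rfl := kill hf1 (by linarith [hw 3 (by norm_num), hp 3])
  obtain rfl := kill hg5 (by linarith)
  obtain rfl := kill hg4 (by linarith [hw 2 (by norm_num), hp 2])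
  obtain rfl := kill hg3 (by linarith [hw 3 (by norm_num), hp 3])
  obtain rfl := kill hg2 (by linarith [hw 4 (by norm_num), hp 4])
  obtain rfl := kill hg1 (by linarith [hw 5 (by norm_num), hp 5])
  simp only [mul_zero, add_zero] at hD hy
  obtain rfl := kill hD (by linarith)
  obtain rfl := kill hy (by linarith [hw 6 (by norm_num), hp 6, h26.1])
  have hu' : |(p.r : ℤ) * j| ≤ m := by
    have : |(p.r : ℝ) * j| ≤ m := by simpa using hu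
    exact_mod_cast this
  have hz' : |(p.r : ℤ) ^ 4 * ζ| ≤ m ^ 4 + m ^ 2 := by
    have : |(p.r : ℝ) ^ 4 * ζ| ≤ m ^ 4 + m ^ 2 := by simpa using hz
    exact_mod_cast this
  obtain rfl := kill hu' (by linarith)
  obtain rfl := kill hz' (by linarith [hw 4 (by norm_num), hp 4, h26.2])
  exact ext (by ext <;> simp [el]) (by simp [el]) (by simp [el])

theorem lat_cover (p : Par a) (hr : 0 < p.r) (h : G K a) : ∃ γ ∈ Lat p, γ * h ∈
    Bx a 0 ![p.α, p.r, p.r ^ 5, p.r, p.r, p.r ^ 2, p.r, p.r ^ 2, p.r ^ 3, p.r, p.r ^ 2, p.r ^ 3,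
      p.r ^ 4, p.r ^ 5, p.r ^ 6] 0 p.r 0 (p.r ^ 4) := by
  have hr' : (0 : ℤ) < p.r := by exact_mod_cast hr
  have hr'' : (0 : ℝ) < p.r := by exact_mod_cast hr
  have hα : (0 : ℤ) < p.α := by exact_mod_cast hr.trans_le p.hα
  obtain ⟨k, hk⟩ := exists_red h.d.A p.α hα
  obtain ⟨j, hj⟩ := exists_red_real (k * p.t.1 + h.u.1) p.r hr''
  obtain ⟨b, hb⟩ := exists_red h.d.B p.r hr'
  obtain ⟨b', hb'⟩ := exists_red (p.r ^ 3 * p.θ * b + h.d.D) (p.r ^ 5) (by positivity)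
  obtain ⟨c, hc⟩ := exists_red h.d.C p.r hr'
  obtain ⟨n, hn⟩ := exists_red h.d.e p.r hr'
  obtain ⟨g, hg⟩ : ∃ g, g = el p k j b b' c n 0 0 0 0 0 0 0 0 0 0 0 * h := ⟨_, rfl⟩
  obtain ⟨ξ, hξ⟩ := exists_red g.d.x (p.r ^ 2) (by positivity)
  obtain ⟨η, hη⟩ := exists_red (p.r ^ 4 * p.θ * ξ + g.d.y) (p.r ^ 6) (by positivity)
  obtain ⟨φ3, hφ3⟩ := exists_red g.d.f3 p.r hr'
  obtain ⟨φ2, hφ2⟩ := exists_red g.d.f2 (p.r ^ 2) (by positivity)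
  obtain ⟨φ1, hφ1⟩ := exists_red g.d.f1 (p.r ^ 3) (by positivity)
  obtain ⟨ζ, hζ⟩ := exists_red_real g.z.1 (p.r ^ 4) (by positivity)
  obtain ⟨γ5, hγ5⟩ := exists_red g.d.g5 p.r hr'
  obtain ⟨γ4, hγ4⟩ := exists_red g.d.g4 (p.r ^ 2) (by positivity)
  obtain ⟨γ3, hγ3⟩ := exists_red g.d.g3 (p.r ^ 3) (by positivity)
  obtain ⟨γ2, hγ2⟩ := exists_red g.d.g2 (p.r ^ 4) (by positivity)
  obtain ⟨γ1, hγ1⟩ := exists_red g.d.g1 (p.r ^ 5) (by positivity)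
  refine ⟨_, mul_mem (el_mem p 0 0 0 0 0 0 ξ η φ3 φ2 φ1 ζ γ5 γ4 γ3 γ2 γ1)
    (el_mem p k j b b' c n 0 0 0 0 0 0 0 0 0 0 0), ?_⟩
  rw [mul_assoc, ← hg]
  have hA : g.d.A = p.α * k + h.d.A := by simp [hg, el]
  have hB : g.d.B = p.r * b + h.d.B := by simp [hg, el]
  have hD : g.d.D = p.r ^ 5 * b' + (p.r ^ 3 * p.θ * b + h.d.D) := by simp [hg, el, add_assoc]
  have hC : g.d.C = p.r * c + h.d.C := by simp [hg, el]
  have he : g.d.e = p.r * n + h.d.e := by simp [hg, el]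
  have hu : g.u.1 = p.r * j + (k * p.t.1 + h.u.1) := by simp [hg, el, add_assoc]
  clear hg
  refine ⟨fun i => ?_, ?_, ?_⟩
  · fin_cases i <;> simp [Dz.vec, el, *, add_assoc]
  · simp [el, *]
  · simp [el, Dz.cz, *]

variable [TopologicalSpace K]

theorem discrete_of_box (Γ : Subgroup (G K a)) [IsTopologicalRing K]
    (h : ∀ g ∈ Γ, g.Box 1 → g = 1) : DiscreteTopology Γ := by
  refine discreteTopology_of_isOpen_singleton_one ?_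
  have hU : IsOpen {g : G K a | g.d = 1 ∧ |g.u.1| < 1 ∧ |g.z.1| < 1} :=
    ((isOpen_discrete {(1 : Dz)}).preimage continuous_d).inter
      ((isOpen_lt (continuous_fst.comp continuous_u).abs continuous_const).inter
        (isOpen_lt (continuous_fst.comp continuous_z).abs continuous_const))
  convert hU.preimage (continuous_subtype_val (p := (· ∈ Γ))) using 1
  ext g
  constructor
  · rintro rfl
    simp
  · rintro ⟨h1, h2, h3⟩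
    refine Subtype.ext (h g g.2 ⟨?_, by simpa using h2.le, by simp; linarith⟩)
    rw [h1]
    constructor <;> simp

variable [IsTopologicalRing K] [CompactSpace K] [SecondCountableTopology K]

theorem upper (μ : Measure (G K a)) [μ.IsHaarMeasure] {c : ℝ≥0}
    (hc : ∀ (lo : Fin 15 → ℤ) (N : Fin 15 → ℕ) (s l t m : ℝ),
      μ (Bx a lo N s l t m) = c * ((∏ i, N i : ℕ) * (ENNReal.ofReal l * ENNReal.ofReal m)))
    (p : Par a) (hr : 20 < p.r) :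
    ∃ Γ : Subgroup (G K a), DiscreteTopology Γ ∧ CompactSpace (G K a ⧸ Γ) ∧
      (∀ γ ∈ Γ, γ ≠ 1 → p.r ≤ 20 * wordLength (gen a) γ) ∧
      covolume Γ (G K a) μ ≤ c * (p.α * p.r ^ 42 : ℕ) := by
  have hd := discrete_of_box (Lat p) fun g hg => lat_sys p (by omega) hg
  refine ⟨Lat p, hd, ?_, fun γ hγ h1 => ?_, ?_⟩
  · refine compact_quot _ _ (isCompact_box (a := a) (p.α + p.r ^ 6) (p.r ^ 4)) fun x => ?_
    obtain ⟨γ, hγ, h1, h2, h3⟩ := lat_cover p (by omega) x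
    have h4 : (1 : ℤ) ≤ p.r := by exact_mod_cast (by omega : 1 ≤ p.r)
    have h5 : (1 : ℝ) ≤ p.r := by exact_mod_cast (by omega : 1 ≤ p.r)
    have hk : ∀ k, k ≤ 6 → (p.r : ℤ) ^ k ≤ p.r ^ 6 := fun k hk => pow_le_pow_right₀ h4 hk
    have := hk 1 (by norm_num)
    have := hk 2 (by norm_num)
    have := hk 3 (by norm_num)
    have := hk 4 (by norm_num)
    have := hk 5 (by norm_num)
    have h6 : (p.r : ℝ) ≤ p.r ^ 4 := le_self_pow₀ h5 (by norm_num)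
    have h7 : (0 : ℤ) ≤ p.α := by positivity
    refine ⟨γ, hγ, fun i => ?_, ?_, ?_⟩
    · obtain ⟨h8, h9⟩ := h1 i
      rw [abs_of_nonneg h8]
      refine h9.le.trans ?_
      fin_cases i <;> simp <;> linarith
    · rw [abs_of_nonneg h2.1]; linarith [h2.2]
    · rw [abs_of_nonneg h3.1]; linarith [h3.2]
  · by_contra hlt
    exact h1 (lat_sys p (not_le.mp hlt) hγ (box_wordLength γ))
  · refine (covol_le_cover _ μ _ (lat_cover p (by omega))).trans (le_of_eq ?_)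
    rw [hc, ENNReal.ofReal_pow (by positivity), ENNReal.ofReal_natCast]
    simp only [Fin.prod_univ_succ, Matrix.cons_val_zero, Matrix.cons_val_succ, Fin.prod_univ_zero]
    push_cast
    ring

end G

end Pool.Agent.MP_c06449_al.H73
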